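import Pool.Agent.H57.NC.Pos

/-!
# Symmetric sets in arbitrary finite groups: norms, separated sets, candidates
-/

set_option autoImplicit false

open Finset

namespace Pool.Agent.H57.FC

open Pool.Agent.H57.NC (cay ct ct_mono ct_le ct_inv ct_mul nm tn)

/-- symmetric set without the neutral element -/
structure Sy {Γ : Type} [Group Γ] (A : Finset Γ) : Prop where
  one : (1 : Γ) ∉ A
  inv : ∀ a ∈ A, a⁻¹ ∈ A

section
variable {Γ : Type} [Group Γ]

theorem cay_adj {A : Finset Γ} (hA : Sy A) (x y : Γ) :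
    (cay (A : Set Γ)).Adj x y ↔ x⁻¹ * y ∈ A := by
  unfold cay
  rw [SimpleGraph.fromRel_adj]
  simp only [mem_coe]
  constructor
  · rintro ⟨_, h | h⟩
    · exact h
    · have := hA.inv _ h
      simpa [mul_inv_rev] using this
  · intro h
    refine ⟨?_, Or.inl h⟩
    rintro rfl
    rw [inv_mul_cancel] at h
    exact hA.one h

theorem Sy.inv_iff {A : Finset Γ} (hA : Sy A) (a : Γ) : a⁻¹ ∈ A ↔ a ∈ A := by
  constructor
  · intro h
    have := hA.inv _ h
    rwa [inv_inv] at this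
  · exact hA.inv a

/-- a norm on a group (not necessarily conjugation-invariant) -/
structure Nl (ν : Γ → ℝ) : Prop where
  one : ν 1 = 0
  inv : ∀ g, ν g⁻¹ = ν g
  mul : ∀ g h, ν (g * h) ≤ ν g + ν h

theorem Nl.tri {ν : Γ → ℝ} (hν : Nl ν) (x y z : Γ) :
    ν (x⁻¹ * z) ≤ ν (x⁻¹ * y) + ν (y⁻¹ * z) := by
  have := hν.mul (x⁻¹ * y) (y⁻¹ * z)
  have h : x⁻¹ * y * (y⁻¹ * z) = x⁻¹ * z := by group
  rwa [h] at this

theorem Nl.symm {ν : Γ → ℝ} (hν : Nl ν) (x y : Γ) : ν (x⁻¹ * y) = ν (y⁻¹ * x) := by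
  rw [← hν.inv]
  congr 1
  group

theorem nm_nl {X : Finset Γ} (hne : X.Nonempty) : Nl (nm X) := by
  classical
  have hc : (0 : ℝ) < X.card := by exact_mod_cast hne.card_pos
  refine ⟨?_, ?_, ?_⟩
  · have : ct 1 X X = X.card := by
      unfold ct
      congr 1
      rw [filter_eq_self]
      intro x hx
      rwa [one_mul]
    unfold nm
    rw [this, div_self hc.ne', sub_self]
  · intro g
    unfold nm
    rw [ct_inv]
  · intro g h
    unfold nm
    have h1 : (ct g X X : ℝ) + ct h X X ≤ ct (g * h) X X + X.card := by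
      exact_mod_cast ct_mul g h X
    have h2 : ((ct g X X : ℝ) + ct h X X) / X.card ≤ (ct (g * h) X X + X.card) / X.card :=
      div_le_div_of_nonneg_right h1 hc.le
    rw [add_div, add_div, div_self hc.ne'] at h2
    linarith

theorem tn_nl : Nl (tn : Γ → ℝ) := by
  classical
  refine ⟨by simp [tn], fun g => by simp [tn], ?_⟩
  intro g h
  unfold tn
  by_cases hg : g = 1
  · subst hg; simp
  · by_cases hh : h = 1
    · subst hh; simp
    · rw [if_neg hg, if_neg hh]
      split_ifs <;> norm_num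

/-- separated sets -/
theorem sep {ν : Γ → ℝ} (hν : Nl ν) [Fintype Γ] (P Q : Finset Γ) (r c : ℝ)
    (hr : 0 ≤ r) (hc : ∀ z ∈ P, c ≤ ((Q.filter fun x => ν (z⁻¹ * x) ≤ r).card : ℝ)) :
    ∃ Z ⊆ P, (Z.card : ℝ) * c ≤ Q.card ∧ (∀ z ∈ P, ∃ z' ∈ Z, ν (z'⁻¹ * z) ≤ 2 * r) ∧
      ∀ z ∈ Z, ∀ z' ∈ Z, z ≠ z' → 2 * r < ν (z⁻¹ * z') := by
  classical
  obtain ⟨S, hS⟩ : ∃ S : Finset Γ → Prop, S = fun Z => ∀ z ∈ Z, ∀ z' ∈ Z, z ≠ z' →
      2 * r < ν (z⁻¹ * z') := ⟨_, rfl⟩
  obtain ⟨Z, hZ, hmax⟩ := Finset.exists_max_image (P.powerset.filter S) Finset.card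
    ⟨∅, by
      rw [mem_filter]
      refine ⟨empty_mem_powerset _, ?_⟩
      rw [hS]
      intro u hu
      simp at hu⟩
  rw [mem_filter, mem_powerset] at hZ
  obtain ⟨hZP, hZS⟩ := hZ
  rw [hS] at hZS
  refine ⟨Z, hZP, ?_, ?_, hZS⟩
  · have h1 : ∑ z ∈ Z, c ≤ ∑ z ∈ Z, ((Q.filter fun x => ν (z⁻¹ * x) ≤ r).card : ℝ) :=
      sum_le_sum fun z hz => hc z (hZP hz)
    rw [sum_const, nsmul_eq_mul] at h1
    refine h1.trans ?_
    have h2 : ∑ z ∈ Z, (Q.filter fun x => ν (z⁻¹ * x) ≤ r).card =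
        (Z.biUnion fun z => Q.filter fun x => ν (z⁻¹ * x) ≤ r).card := by
      rw [card_biUnion]
      intro z hz z' hz' hne
      change Disjoint (Q.filter fun x => ν (z⁻¹ * x) ≤ r) (Q.filter fun x => ν (z'⁻¹ * x) ≤ r)
      rw [disjoint_left]
      intro x hx hx'
      rw [mem_filter] at hx hx'
      have h3 := hZS z hz z' hz' hne
      have h4 := hν.tri z x z'
      have h5 := hν.symm x z'
      linarith [hx.2, hx'.2]
    have h3 : (Z.biUnion fun z => Q.filter fun x => ν (z⁻¹ * x) ≤ r).card ≤ Q.card := by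
      apply card_le_card
      intro x hx
      obtain ⟨z, _, hx⟩ := mem_biUnion.1 hx
      exact (mem_filter.1 hx).1
    rw [← h2] at h3
    exact_mod_cast h3
  · intro z hz
    by_contra hcon
    push Not at hcon
    have hzZ : z ∉ Z := by
      intro h
      have := hcon z h
      rw [inv_mul_cancel, hν.one] at this
      linarith
    have h1 : insert z Z ∈ P.powerset.filter S := by
      rw [mem_filter, mem_powerset]
      refine ⟨insert_subset hz hZP, ?_⟩
      rw [hS]
      intro u hu v hv huv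
      rw [mem_insert] at hu hv
      rcases hu with rfl | hu
      · rcases hv with rfl | hv
        · exact absurd rfl huv
        · rw [hν.symm]
          exact hcon v hv
      · rcases hv with rfl | hv
        · exact hcon u hu
        · exact hZS u hu v hv huv
    have h2 := hmax _ h1
    rw [card_insert_of_notMem hzZ] at h2
    omega

open Classical in
/-- sets of candidates in a neighbourhood -/
theorem cand {A : Finset Γ} (hA : Sy A)
    (hK : (cay (A : Set Γ)).CliqueFree 4) (N : Finset Γ) (hN : N ⊆ A) (m : ℕ) (T s : ℝ)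
    (hT0 : 0 ≤ T) (h1 : s + m ≤ T) (h2 : s + m * (T + 1) ≤ N.card) :
    ∃ Q ⊆ N, ∀ J ⊆ Q, J.card ≤ m →
      s ≤ ((Q.filter fun y => ∀ j ∈ J, j⁻¹ * y ∉ A ∧ j ≠ y).card : ℝ) := by
  by_cases hc : ∃ y ∈ N, T ≤ ((N.filter fun z => y⁻¹ * z ∈ A).card : ℝ)
  · obtain ⟨y, hy, hT⟩ := hc
    refine ⟨N.filter fun z => y⁻¹ * z ∈ A, filter_subset _ _, ?_⟩
    intro J hJ hJm
    obtain ⟨Q, hQ⟩ : ∃ Q, Q = N.filter fun z => y⁻¹ * z ∈ A := ⟨_, rfl⟩
    rw [← hQ] at hJ hT ⊢
    have hind : ∀ a ∈ Q, ∀ b ∈ Q, a⁻¹ * b ∉ A := by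
      intro a ha b hb hab
      rw [hQ, mem_filter] at ha hb
      have hadj : ∀ x z : Γ, x⁻¹ * z ∈ A → (cay (A : Set Γ)).Adj x z :=
        fun x z h => (cay_adj hA x z).2 h
      have e1 : (cay (A : Set Γ)).Adj 1 y := hadj _ _ (by simpa using hN hy)
      have e2 : (cay (A : Set Γ)).Adj 1 a := hadj _ _ (by simpa using hN ha.1)
      have e3 : (cay (A : Set Γ)).Adj 1 b := hadj _ _ (by simpa using hN hb.1)
      have e4 := hadj y a ha.2
      have e5 := hadj y b hb.2
      have e6 := hadj a b hab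
      have e7 : (cay (A : Set Γ)).IsNClique 3 {y, a, b} :=
        SimpleGraph.is3Clique_iff.2 ⟨y, a, b, e4, e5, e6, rfl⟩
      refine hK _ (e7.insert (a := 1) ?_)
      intro c hc
      simp only [mem_insert, mem_singleton] at hc
      rcases hc with rfl | rfl | rfl
      · exact e1
      · exact e2
      · exact e3
    have h3 : Q \ J ⊆ Q.filter fun y => ∀ j ∈ J, j⁻¹ * y ∉ A ∧ j ≠ y := by
      intro z hz
      rw [mem_sdiff] at hz
      rw [mem_filter]
      refine ⟨hz.1, fun j hj => ⟨hind j (hJ hj) z hz.1, ?_⟩⟩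
      rintro rfl
      exact hz.2 hj
    have h4 := card_le_card h3
    rw [card_sdiff_of_subset hJ] at h4
    have h5 : (Q.card : ℝ) - J.card ≤ ((Q.filter fun y => ∀ j ∈ J, j⁻¹ * y ∉ A ∧ j ≠ y).card : ℝ) := by
      have h6 : Q.card ≤ (Q.filter fun y => ∀ j ∈ J, j⁻¹ * y ∉ A ∧ j ≠ y).card + J.card := by omega
      have h7 : (Q.card : ℝ) ≤ (Q.filter fun y => ∀ j ∈ J, j⁻¹ * y ∉ A ∧ j ≠ y).card + J.card := by
        exact_mod_cast h6
      linarith
    have h8 : (J.card : ℝ) ≤ m := by exact_mod_cast hJm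
    linarith
  · push Not at hc
    refine ⟨N, Subset.refl _, ?_⟩
    intro J hJ hJm
    obtain ⟨B, hB⟩ : ∃ B : Finset Γ, B = J.biUnion fun j =>
      insert j (N.filter fun z => j⁻¹ * z ∈ A) := ⟨_, rfl⟩
    have h3 : N \ B ⊆ N.filter fun y => ∀ j ∈ J, j⁻¹ * y ∉ A ∧ j ≠ y := by
      intro z hz
      rw [mem_sdiff] at hz
      rw [mem_filter]
      refine ⟨hz.1, fun j hj => ⟨?_, ?_⟩⟩
      · intro h4
        apply hz.2
        rw [hB, mem_biUnion]
        exact ⟨j, hj, mem_insert_of_mem (mem_filter.2 ⟨hz.1, h4⟩)⟩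
      · rintro rfl
        apply hz.2
        rw [hB, mem_biUnion]
        exact ⟨j, hj, mem_insert_self _ _⟩
    have h4 : (B.card : ℝ) ≤ m * (T + 1) := by
      have h5 : (B.card : ℝ) ≤ ∑ j ∈ J, ((insert j (N.filter fun z => j⁻¹ * z ∈ A)).card : ℝ) := by
        rw [hB]
        exact_mod_cast card_biUnion_le
      have h6 : ∑ j ∈ J, ((insert j (N.filter fun z => j⁻¹ * z ∈ A)).card : ℝ) ≤
          ∑ j ∈ J, (T + 1) := by
        apply sum_le_sum
        intro j hj
        have h7 := hc j (hJ hj)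
        have h8 := card_insert_le j (N.filter fun z => j⁻¹ * z ∈ A)
        have h9 : ((insert j (N.filter fun z => j⁻¹ * z ∈ A)).card : ℝ) ≤
          (N.filter fun z => j⁻¹ * z ∈ A).card + 1 := by exact_mod_cast h8
        linarith
      rw [sum_const, nsmul_eq_mul] at h6
      have h7 : (J.card : ℝ) * (T + 1) ≤ m * (T + 1) :=
        mul_le_mul_of_nonneg_right (by exact_mod_cast hJm) (by linarith)
      linarith
    have h5 := card_le_card h3
    have h6 := card_sdiff_add_card N B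
    have h7 : N.card ≤ (N \ B).card + B.card := by
      have := card_le_card (subset_union_left : N ⊆ N ∪ B)
      omega
    have h8 : (N.card : ℝ) ≤ ((N.filter fun y => ∀ j ∈ J, j⁻¹ * y ∉ A ∧ j ≠ y).card : ℝ) +
        B.card := by
      have : N.card ≤ (N.filter fun y => ∀ j ∈ J, j⁻¹ * y ∉ A ∧ j ≠ y).card + B.card := by omega
      exact_mod_cast this
    linarith

/-- near-periods are not in `A` -/
theorem nm_sepa {A X : Finset Γ} (hA : Sy A)
    (hK : (cay (A : Set Γ)).CliqueFree 4) (hXA : X ⊆ A) (hX : Sy X) (hne : X.Nonempty) :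
    ∀ a ∈ A, 1 / 3 ≤ nm X a := by
  classical
  intro a ha
  by_contra hcon
  push Not at hcon
  have hn : (0 : ℝ) < X.card := by exact_mod_cast hne.card_pos
  unfold nm at hcon
  have h1 : 2 / 3 * (X.card : ℝ) < ct a⁻¹ X X := by
    rw [ct_inv]
    have h2 : 2 / 3 < (ct a X X : ℝ) / X.card := by linarith
    rwa [lt_div_iff₀ hn] at h2
  -- the set of the `s ∈ X` with `a⁻¹ s ∈ X`
  obtain ⟨P, hP⟩ : ∃ P : Finset Γ, P = X.filter fun b => a⁻¹ * b ∈ X := ⟨_, rfl⟩
  obtain ⟨Q, hQ⟩ : ∃ Q : Finset Γ, Q = X.filter fun b => b * a ∈ X := ⟨_, rfl⟩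
  obtain ⟨R, hR⟩ : ∃ R : Finset Γ, R = X.filter fun b => a⁻¹ * b ∈ X ∧ a⁻¹ * b * a ∈ X :=
    ⟨_, rfl⟩
  have hPc : 2 / 3 * (X.card : ℝ) < P.card := by
    have : ct a⁻¹ X X = P.card := by rw [hP]; rfl
    rw [← this]; exact h1
  have hQP : Q.card = P.card := by
    rw [hP, hQ]
    refine card_bij (fun b _ => b⁻¹) ?_ ?_ ?_
    · intro b hb
      rw [mem_filter] at hb ⊢
      refine ⟨hX.inv b hb.1, ?_⟩
      have := hX.inv _ hb.2
      rwa [mul_inv_rev] at this
    · intro b _ c _ h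
      exact inv_injective h
    · intro b hb
      rw [mem_filter] at hb
      refine ⟨b⁻¹, ?_, inv_inv b⟩
      rw [mem_filter]
      refine ⟨hX.inv b hb.1, ?_⟩
      have := hX.inv _ hb.2
      rwa [mul_inv_rev, inv_inv] at this
  -- the set of the `s` with `a⁻¹ s ∈ X`, `a⁻¹ s a ∈ X`
  have hRc : P.card + Q.card ≤ R.card + X.card := by
    have h2 : (Q.image fun b => a * b) ∩ X ⊆ R := by
      intro b hb
      rw [mem_inter, mem_image] at hb
      obtain ⟨⟨c, hc, rfl⟩, hb2⟩ := hb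
      rw [hQ, mem_filter] at hc
      rw [hR, mem_filter]
      refine ⟨hb2, ?_, ?_⟩
      · simpa using hc.1
      · simpa [mul_assoc] using hc.2
    have h3 : (Q.image fun b => a * b).card = Q.card :=
      card_image_of_injective _ (mul_right_injective a)
    have h4 : ((X.image fun b => a * b) \ (Q.image fun b => a * b)).card =
        X.card - Q.card := by
      rw [card_sdiff_of_subset, h3, card_image_of_injective _ (mul_right_injective a)]
      apply image_subset_image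
      rw [hQ]
      exact filter_subset _ _
    have h5 : (X.image fun b => a * b) ∩ X ⊆
        ((Q.image fun b => a * b) ∩ X) ∪
          ((X.image fun b => a * b) \ (Q.image fun b => a * b)) := by
      intro b hb
      rw [mem_inter] at hb
      rw [mem_union, mem_inter, mem_sdiff]
      by_cases h6 : b ∈ Q.image fun b => a * b
      · left; exact ⟨h6, hb.2⟩
      · right; exact ⟨hb.1, h6⟩
    have h6 : P ⊆ (X.image fun b => a * b) ∩ X := by
      intro b hb
      rw [hP, mem_filter] at hb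
      rw [mem_inter, mem_image]
      exact ⟨⟨a⁻¹ * b, hb.2, by group⟩, hb.1⟩
    have h7 := card_le_card h6
    have h8 := (card_le_card h5).trans (card_union_le _ _)
    have h9 := card_le_card h2
    have h10 : Q.card ≤ X.card := by
      rw [hQ]; exact card_filter_le _ _
    omega
  have hex : ∃ s ∈ X, s * a ∈ X ∧ a⁻¹ * s ∈ X ∧ a⁻¹ * s * a ∈ X := by
    have h2 : (Q ∪ R).card ≤ X.card := by
      apply card_le_card
      rw [hQ, hR]
      exact union_subset (filter_subset _ _) (filter_subset _ _)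
    have h3 := card_union_add_card_inter Q R
    have h4 : X.card < Q.card + R.card := by
      have h5 : (P.card : ℝ) + Q.card ≤ R.card + X.card := by exact_mod_cast hRc
      have h6 : (Q.card : ℝ) = P.card := by exact_mod_cast hQP
      have h7 : (X.card : ℝ) < Q.card + R.card := by linarith
      exact_mod_cast h7
    have h5 : 0 < (Q ∩ R).card := by omega
    obtain ⟨s, hs⟩ := card_pos.1 h5
    rw [mem_inter, hQ, hR, mem_filter, mem_filter] at hs
    exact ⟨s, hs.1.1, hs.1.2, hs.2.2.1, hs.2.2.2⟩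
  obtain ⟨s, hs1, hs2, hs3, hs4⟩ := hex
  have hadj : ∀ x z : Γ, x⁻¹ * z ∈ A → (cay (A : Set Γ)).Adj x z :=
    fun x z h => (cay_adj hA x z).2 h
  have e1 : (cay (A : Set Γ)).Adj 1 a := hadj _ _ (by simpa using ha)
  have e2 : (cay (A : Set Γ)).Adj 1 s := hadj _ _ (by simpa using hXA hs1)
  have e3 : (cay (A : Set Γ)).Adj 1 (s * a) := hadj _ _ (by simpa using hXA hs2)
  have e4 : (cay (A : Set Γ)).Adj a s := hadj _ _ (hXA hs3)
  have e5 : (cay (A : Set Γ)).Adj a (s * a) := by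
    apply hadj
    rw [← mul_assoc]
    exact hXA hs4
  have e6 : (cay (A : Set Γ)).Adj s (s * a) := by
    apply hadj
    rwa [inv_mul_cancel_left]
  have e7 : (cay (A : Set Γ)).IsNClique 3 {a, s, s * a} :=
    SimpleGraph.is3Clique_iff.2 ⟨a, s, s * a, e4, e5, e6, rfl⟩
  refine hK _ (e7.insert (a := 1) ?_)
  intro c hc
  simp only [mem_insert, mem_singleton] at hc
  rcases hc with rfl | rfl | rfl
  · exact e1
  · exact e2
  · exact e3

end

end Pool.Agent.H57.FC
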