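import Pool.Agent.H57.FC.Spread

/-!
# Colouring, and the theorem for connection sets whose elements have few conjugates
-/

set_option autoImplicit false

open Finset

namespace Pool.Agent.H57.FC

open Pool.Agent.W259.GS (Sh)
open Pool.Agent.H57.NC (cay)

open Classical in
/-- few separated points in a ball -/
theorem deg_bound {Γ : Type} [Group Γ] [Fintype Γ] {A : Finset Γ} {k : ℕ} {κ K : ℝ} {ν : Γ → ℝ}
    (hν : St A k κ K ν) (hκ : 0 < κ) (hκ2 : κ ≤ 1 / 384) (Y : Finset Γ)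
    (hY : ∀ z ∈ Y, ∀ z' ∈ Y, z ≠ z' → 2 * κ < ν (z⁻¹ * z')) (w : Γ)
    (hw : ∀ z ∈ Y, ν (w⁻¹ * z) ≤ 3 / 16) : (Y.card : ℝ) ≤ K := by
  obtain ⟨B, hB⟩ : ∃ B : Finset Γ, B = (univ : Finset Γ).filter fun g => ν g ≤ κ := ⟨_, rfl⟩
  have hdbl := hν.dbl
  rw [← hB] at hdbl
  have hB0 : (0 : ℝ) < B.card := by
    have : (1 : Γ) ∈ B := by
      rw [hB, mem_filter]
      exact ⟨mem_univ _, by rw [hν.nr.one]; exact hκ.le⟩
    exact_mod_cast card_pos.2 ⟨_, this⟩
  have h1 : Y.card * B.card ≤ ((univ : Finset Γ).filter fun g => ν g ≤ 1 / 4).card := by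
    rw [← card_product]
    refine card_le_card_of_injOn (fun p : Γ × Γ => w⁻¹ * (p.1 * p.2)) ?_ ?_
    · rintro ⟨z, g⟩ hp
      rw [mem_coe, mem_product] at hp
      obtain ⟨hz, hg⟩ := hp
      simp only at hz hg
      rw [hB, mem_filter] at hg
      rw [mem_coe, mem_filter]
      refine ⟨mem_univ _, ?_⟩
      have h2 := hν.nr.mul (w⁻¹ * z) g
      rw [mul_assoc] at h2
      have h3 := hw z hz
      simp only
      linarith [hg.2]
    · rintro ⟨z, g⟩ hp ⟨z', g'⟩ hp' h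
      rw [mem_coe, mem_product] at hp hp'
      obtain ⟨hz, hg⟩ := hp
      obtain ⟨hz', hg'⟩ := hp'
      simp only at hz hg hz' hg'
      have h2 : z * g = z' * g' := mul_left_cancel h
      have h3 : z = z' := by
        by_contra hne
        have h4 := hY z hz z' hz' hne
        have h5 : z⁻¹ * z' = g * g'⁻¹ := by
          have : z' = z * g * g'⁻¹ := by rw [h2]; group
          rw [this]; group
        rw [h5] at h4
        have h6 := hν.nr.mul g g'⁻¹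
        rw [hν.nr.inv] at h6
        rw [hB, mem_filter] at hg hg'
        linarith [hg.2, hg'.2]
      subst h3
      rw [mul_left_cancel h2]
  have h2 : (Y.card : ℝ) * B.card ≤ K * B.card := by
    refine le_trans ?_ hdbl
    exact_mod_cast h1
  exact le_of_mul_le_mul_right h2 hB0

open Classical in
/-- colouring of the edges in the directions of one ball -/
theorem colour {Γ : Type} [Group Γ] [Fintype Γ] {A : Finset Γ} {k : ℕ} {κ K D : ℝ} {ν : Γ → ℝ}
    (hν : St A k κ K ν) (hκ : 0 < κ) (hκ2 : κ ≤ 1 / 384) (hD : 1 ≤ D) (y : Γ)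
    (hy : (idx y : ℝ) ≤ D) :
    ∃ c : Γ → Fin (⌊D * K + D * (k ^ 2 * D * K)⌋₊ + 1), ∀ x x', x⁻¹ * x' ∈ A →
      ν (y⁻¹ * (x⁻¹ * x')) ≤ 1 / 64 → c x ≠ c x' := by
  have hnr := hν.nr
  obtain ⟨T, hTc, hTb, hT⟩ := conj_cov hnr y (2 * κ)
  have hTD : (T.card : ℝ) ≤ D := le_trans (by exact_mod_cast hTc) hy
  have hD0 : 0 < D := by linarith
  have hK0 : 0 ≤ K := by
    have h1 := deg_bound hν hκ hκ2 (∅ : Finset Γ) (by simp) 1 (by simp)
    simpa using h1
  -- the number of conjugates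
  have hTk : ∀ t ∈ T, (idx t : ℝ) ≤ k ^ 2 * D := by
    intro t ht
    obtain ⟨b, hb, rfl⟩ := hTb t ht
    have h1 := idx_mul b y
    have h2 := hν.sm b (by linarith)
    have h3 : (idx (b * y) : ℝ) ≤ (idx b : ℝ) * idx y := by exact_mod_cast h1
    have h4 : (idx b : ℝ) ≤ (k : ℝ) ^ 2 := by exact_mod_cast h2
    refine h3.trans ?_
    exact mul_le_mul h4 hy (Nat.cast_nonneg _) (by positivity)
  have hU : ∀ t : Γ, ∃ U : Finset Γ, U.card ≤ idx t ∧ ∀ b, ν b ≤ 1 / 32 →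
      ∃ u ∈ U, ν (u⁻¹ * (b * t⁻¹)) ≤ 2 * (1 / 32) := by
    intro t
    obtain ⟨U, h1, -, h2⟩ := conj_cov hnr t⁻¹ (1 / 32)
    rw [idx_inv] at h1
    exact ⟨U, h1, h2⟩
  choose U hUc hU using hU
  obtain ⟨Z, -, -, hZc, hZs⟩ := sep hnr (univ : Finset Γ) (univ : Finset Γ) κ 0 hκ.le
    (fun z _ => Nat.cast_nonneg _)
  choose! φ hφ1 hφ2 using fun z => hZc z (mem_univ z)
  obtain ⟨R, hR⟩ : ∃ R : Γ → Γ → Prop, R = fun z z' => z ∈ Z ∧ z' ∈ Z ∧
    ((∃ t ∈ T, ν (t⁻¹ * (z⁻¹ * z')) ≤ 1 / 32) ∨ ∃ t ∈ T, ν (t⁻¹ * (z'⁻¹ * z)) ≤ 1 / 32) :=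
    ⟨_, rfl⟩
  obtain ⟨c, hc⟩ := Pool.Agent.TH346.LG.greedy R (by
      intro x x' h
      rw [hR] at h ⊢
      exact ⟨h.2.1, h.1, h.2.2.symm⟩) (⌊D * K + D * (k ^ 2 * D * K)⌋₊ + 1) (by
      intro z Y hY
      have hYR : ∀ z' ∈ Y, z' ∈ Z ∧ ((∃ t ∈ T, ν (t⁻¹ * (z⁻¹ * z')) ≤ 1 / 32) ∨
          ∃ t ∈ T, ν (t⁻¹ * (z'⁻¹ * z)) ≤ 1 / 32) := by
        intro z' hz'
        have := hY z' hz'
        rw [hR] at this
        exact this.2
      have hYs : ∀ W ⊆ Y, ∀ a ∈ W, ∀ b ∈ W, a ≠ b → 2 * κ < ν (a⁻¹ * b) := by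
        intro W hW a ha b hb hab
        exact hZs a (hYR a (hW ha)).1 b (hYR b (hW hb)).1 hab
      rw [Nat.lt_succ_iff]
      apply Nat.le_floor
      obtain ⟨Y1, hY1⟩ : ∃ Y1 : Finset Γ, Y1 = T.biUnion fun t =>
        Y.filter fun z' => ν (t⁻¹ * (z⁻¹ * z')) ≤ 1 / 32 := ⟨_, rfl⟩
      obtain ⟨Y2, hY2⟩ : ∃ Y2 : Finset Γ, Y2 = T.biUnion fun t => (U t).biUnion fun u =>
        Y.filter fun z' => ν ((z * u)⁻¹ * z') ≤ 2 * (1 / 32) := ⟨_, rfl⟩
      have hbi : ∀ {α : Type} (S : Finset α) (f : α → Finset Γ) (a b : ℝ),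
          (S.card : ℝ) ≤ a → 0 ≤ b → (∀ s ∈ S, ((f s).card : ℝ) ≤ b) →
          ((S.biUnion f).card : ℝ) ≤ a * b := by
        intro α S f a b ha hb hf
        have h1 : ((S.biUnion f).card : ℝ) ≤ ∑ s ∈ S, ((f s).card : ℝ) := by
          exact_mod_cast card_biUnion_le
        have h2 := sum_le_sum hf
        rw [sum_const, nsmul_eq_mul] at h2
        exact h1.trans (h2.trans (mul_le_mul_of_nonneg_right ha hb))
      have h1 : (Y1.card : ℝ) ≤ D * K := by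
        rw [hY1]
        apply hbi T _ _ _ hTD hK0
        intro t _
        apply deg_bound hν hκ hκ2 _ (hYs _ (filter_subset _ _)) (z * t)
        intro z' hz'
        have h2 := (mem_filter.1 hz').2
        rw [mul_inv_rev, mul_assoc]
        linarith
      have h2 : (Y2.card : ℝ) ≤ D * (k ^ 2 * D * K) := by
        rw [hY2]
        apply hbi T _ _ _ hTD (by positivity)
        intro t ht
        apply hbi (U t) _ _ _ (le_trans (by exact_mod_cast hUc t) (hTk t ht)) hK0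
        intro u _
        apply deg_bound hν hκ hκ2 _ (hYs _ (filter_subset _ _)) (z * u)
        intro z' hz'
        have h2 := (mem_filter.1 hz').2
        linarith
      have h3 : Y ⊆ Y1 ∪ Y2 := by
        intro z' hz'
        rw [mem_union, hY1, hY2]
        rcases (hYR z' hz').2 with ⟨t, ht, h⟩ | ⟨t, ht, h⟩
        · left
          exact mem_biUnion.2 ⟨t, ht, mem_filter.2 ⟨hz', h⟩⟩
        · right
          have h4 : ν ((t⁻¹ * (z'⁻¹ * z))⁻¹) ≤ 1 / 32 := by rw [hnr.inv]; exact h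
          obtain ⟨u, hu, h5⟩ := hU t _ h4
          refine mem_biUnion.2 ⟨t, ht, mem_biUnion.2 ⟨u, hu, mem_filter.2 ⟨hz', ?_⟩⟩⟩
          have h6 : (z * u)⁻¹ * z' = u⁻¹ * ((t⁻¹ * (z'⁻¹ * z))⁻¹ * t⁻¹) := by group
          rw [h6]
          exact h5
      have h4 : (Y.card : ℝ) ≤ Y1.card + Y2.card := by
        exact_mod_cast (card_le_card h3).trans (card_union_le _ _)
      linarith)
  refine ⟨fun x => c (φ x), ?_⟩
  intro x x' hxA hxν
  apply hc
  · intro h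
    have h1 := hν.sepa _ hxA
    have h2 := hnr.tri x (φ x) x'
    have h3 := hφ2 x
    have h4 := hφ2 x'
    rw [hnr.symm x (φ x)] at h2
    rw [← h] at h4
    linarith
  · rw [hR]
    refine ⟨hφ1 x, hφ1 x', Or.inl ?_⟩
    obtain ⟨t, ht, h1⟩ := hT _ (hφ2 x)
    refine ⟨t, ht, ?_⟩
    have h5 : t⁻¹ * ((φ x)⁻¹ * φ x') = t⁻¹ * ((φ x)⁻¹ * x * y) *
        (y⁻¹ * (x⁻¹ * x')) * (x'⁻¹ * φ x') := by group
    rw [h5]
    have h6 := hnr.mul (t⁻¹ * ((φ x)⁻¹ * x * y) * (y⁻¹ * (x⁻¹ * x'))) (x'⁻¹ * φ x')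
    have h7 := hnr.mul (t⁻¹ * ((φ x)⁻¹ * x * y)) (y⁻¹ * (x⁻¹ * x'))
    have h9 := hφ2 x'
    rw [hnr.symm (φ x') x'] at h9
    linarith

/-- a covered connection set gives a colourable graph -/
theorem colourable {Γ : Type} [Group Γ] [Fintype Γ] {A : Finset Γ} (hA : Sy A) {k : ℕ}
    {κ K N D : ℝ} (hκ : 0 < κ) (hκ2 : κ ≤ 1 / 384) (hD : 1 ≤ D)
    (hcov : Cov A k κ K N D (1 / 64) A) :
    (cay (A : Set Γ)).Colorable ((⌊D * K + D * (k ^ 2 * D * K)⌋₊ + 1) ^ ⌊N⌋₊) := by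
  classical
  obtain ⟨S, h1, h2, h3⟩ := hcov
  have hc : ∀ p : Γ × (Γ → ℝ), p ∈ S → ∃ c : Γ → Fin (⌊D * K + D * (k ^ 2 * D * K)⌋₊ + 1),
      ∀ x x', x⁻¹ * x' ∈ A → p.2 (p.1⁻¹ * (x⁻¹ * x')) ≤ 1 / 64 → c x ≠ c x' :=
    fun p hp => colour (h2 p hp).1 hκ hκ2 hD p.1 (h2 p hp).2
  choose! c hc using hc
  let col : (cay (A : Set Γ)).Coloring (↥S → Fin (⌊D * K + D * (k ^ 2 * D * K)⌋₊ + 1)) :=
    SimpleGraph.Coloring.mk (fun x p => c p.1 x) (by
      intro x x' hxx h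
      rw [cay_adj hA] at hxx
      obtain ⟨p, hp, h4⟩ := h3 _ hxx
      exact hc p hp x x' hxx h4 (congrFun h ⟨p, hp⟩))
  have h4 := col.colorable
  rw [Fintype.card_fun, Fintype.card_fin, Fintype.card_coe] at h4
  refine h4.mono ?_
  apply Nat.pow_le_pow_right (by omega)
  exact Nat.le_floor h1

/-- the theorem for symmetric sets -/
theorem gs_sy {m : ℕ} (F : SimpleGraph (Fin m)) (hF : F.IsAcyclic) :
    ∀ k : ℕ, 1 ≤ k → ∃ C : ℕ, ∀ (Γ : Type) [Group Γ] [Fintype Γ] (A : Finset Γ), Sy A →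
      (∀ a ∈ A, idx a ≤ k) → (cay (A : Set Γ)).CliqueFree 4 → IsEmpty (F ↪g cay (A : Set Γ)) →
      (cay (A : Set Γ)).Colorable C := by
  classical
  intro k hk
  obtain ⟨T, hT, ⟨e⟩⟩ := Pool.Agent.H367R3.forest_in_tree F hF
  obtain ⟨par, f, hf, hfn, hpar, hadj⟩ := Pool.Agent.K4H78.TW.tree_order m (Fin (m + 1)) T hT
    (by simp)
  obtain ⟨N₀, hN₀⟩ := Pool.Agent.W259.GS.noShatter F hF.colorable_two 4
  obtain ⟨κ, N, K, D, hκ, hκ2, hD, hcov⟩ := covered m par hpar N₀ k hk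
  refine ⟨(⌊D * K + D * (k ^ 2 * D * K)⌋₊ + 1) ^ ⌊N⌋₊, ?_⟩
  intro Γ _ _ A hA hAk hK hemp
  apply colourable hA hκ hκ2 hD
  apply hcov Γ A
  refine ⟨hA, hAk, hK, fun Y hY => hN₀ Γ _ Y hK hemp hY, ?_⟩
  rintro ⟨w, hw⟩
  have hinj : ∀ x y, f x < f y → w (f x) ≠ w (f y) := by
    intro x y hxy h
    have := (hw (f x) (f y) hxy (by have := hfn y; omega)).2.2
    apply this
    rw [h, inv_mul_cancel]
    exact Set.mem_singleton _
  have hadj' : ∀ x y, f x < f y → ((cay (A : Set Γ)).Adj (w (f x)) (w (f y)) ↔ T.Adj x y) := by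
    intro x y hxy
    rw [cay_adj hA, hadj x y hxy]
    have := hw (f x) (f y) hxy (by have := hfn y; omega)
    constructor
    · intro h
      by_contra h2
      exact this.2.1 h2 h
    · exact this.1
  let g : T ↪g cay (A : Set Γ) :=
    { toFun := fun v => w (f v)
      inj' := by
        intro x y hxy
        rcases lt_trichotomy (f x) (f y) with h | h | h
        · exact absurd hxy (hinj x y h)
        · exact hf h
        · exact absurd hxy.symm (hinj y x h)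
      map_rel_iff' := by
        intro x y
        show (cay (A : Set Γ)).Adj (w (f x)) (w (f y)) ↔ T.Adj x y
        rcases lt_trichotomy (f x) (f y) with h | h | h
        · exact hadj' x y h
        · rw [hf h]; simp
        · rw [SimpleGraph.adj_comm, hadj' y x h, T.adj_comm] }
  exact hemp.false (e.trans g)

/-- the theorem for sets of elements with few conjugates -/
theorem gs_fc {m : ℕ} (F : SimpleGraph (Fin m)) (hF : F.IsAcyclic) (k : ℕ) :
    ∃ C : ℕ, ∀ (Γ : Type) [Group Γ] [Finite Γ] (A : Set Γ),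
      (∀ a ∈ A, (Subgroup.centralizer {a}).index ≤ k) →
      (SimpleGraph.mulCayley A).CliqueFree 4 → IsEmpty (F ↪g SimpleGraph.mulCayley A) →
      (SimpleGraph.mulCayley A).Colorable C := by
  classical
  obtain ⟨C, hC⟩ := gs_sy F hF (k + 1) (by omega)
  refine ⟨C, ?_⟩
  intro Γ _ _ A hAk hK hemp
  have : Fintype Γ := Fintype.ofFinite Γ
  obtain ⟨A', hA'⟩ : ∃ A' : Finset Γ, A' = (univ : Finset Γ).filter fun a =>
    a ≠ 1 ∧ (a ∈ A ∨ a⁻¹ ∈ A) := ⟨_, rfl⟩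
  have hsy : Sy A' := by
    refine ⟨?_, ?_⟩
    · rw [hA', mem_filter]; simp
    · intro a ha
      rw [hA', mem_filter] at ha ⊢
      refine ⟨mem_univ _, ?_, ?_⟩
      · rw [Ne, inv_eq_one]; exact ha.2.1
      · rw [inv_inv]; exact ha.2.2.symm
  have hk : ∀ a ∈ A', idx a ≤ k + 1 := by
    intro a ha
    rw [hA', mem_filter] at ha
    rcases ha.2.2 with h | h
    · exact (hAk a h).trans (by omega)
    · rw [← idx_inv]
      exact (hAk _ h).trans (by omega)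
  have heq : cay (A' : Set Γ) = SimpleGraph.mulCayley A := by
    ext x y
    rw [cay_adj hsy, SimpleGraph.mulCayley_adj', hA', mem_filter]
    constructor
    · rintro ⟨-, h1, h2⟩
      refine ⟨?_, ?_⟩
      · rintro rfl
        apply h1
        rw [inv_mul_cancel]
      · rcases h2 with h2 | h2
        · exact ⟨_, h2, Or.inl (by group)⟩
        · exact ⟨_, h2, Or.inr (by group)⟩
    · rintro ⟨h1, g, hg, h2⟩
      refine ⟨mem_univ _, ?_, ?_⟩
      · intro h3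
        apply h1
        exact (inv_mul_eq_one.1 h3)
      · rcases h2 with rfl | rfl
        · left; simpa using hg
        · right; simpa using hg
  have := hC Γ A' hsy hk (by rw [heq]; exact hK) (by rw [heq]; exact hemp)
  rwa [heq] at this

end Pool.Agent.H57.FC
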