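import Pool.Agent.H57.FC.Base
import Pool.Agent.H57.NC.Light2

/-!
# Most pairs are heavy for many elements: arbitrary groups
-/

set_option autoImplicit false

open Finset

namespace Pool.Agent.H57.FC

open Pool.Agent.H57.NC (cay ct ct_mono ct_le ct_inv ct_mul nm tn ex ex_of ex_update pos pos_par
  pos_congr An An.zero An.sib Ok ok_mem Al Bd many count_two Tr)

open Classical in
/-- pairs with few common neighbours whose product is in a translate of `A` -/
theorem pairs_bound {Γ : Type} [Group Γ] {A X : Finset Γ} (hX : Sy X)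
    (β : ℝ) (h1 : 1 ≤ β * X.card)
    (hs : ∀ z : Γ, (ct z X (A \ X) : ℝ) ≤ β * X.card) (g : Γ) :
    (((X ×ˢ X).filter fun ab : Γ × Γ => (ct (ab.1 * ab.2) X X : ℝ) < β * X.card ∧
      (g * (ab.1 * ab.2) ∈ A ∨ g * (ab.1 * ab.2) = 1)).card : ℝ) ≤ 3 * β * (X.card : ℝ) ^ 2 := by
  obtain ⟨P1, hP1⟩ : ∃ P1 : Finset (Γ × Γ), P1 = (X ×ˢ X).filter fun ab : Γ × Γ =>
    (ct (ab.1 * ab.2) X X : ℝ) < β * X.card ∧ g * (ab.1 * ab.2) ∈ X := ⟨_, rfl⟩
  obtain ⟨P2, hP2⟩ : ∃ P2 : Finset (Γ × Γ), P2 = (X ×ˢ X).filter fun ab : Γ × Γ =>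
    g * (ab.1 * ab.2) ∈ A \ X := ⟨_, rfl⟩
  obtain ⟨P3, hP3⟩ : ∃ P3 : Finset (Γ × Γ), P3 = (X ×ˢ X).filter fun ab : Γ × Γ =>
    g * (ab.1 * ab.2) = 1 := ⟨_, rfl⟩
  have hsub : ((X ×ˢ X).filter fun ab : Γ × Γ => (ct (ab.1 * ab.2) X X : ℝ) < β * X.card ∧
      (g * (ab.1 * ab.2) ∈ A ∨ g * (ab.1 * ab.2) = 1)) ⊆ P1 ∪ (P2 ∪ P3) := by
    intro ab hab
    rw [mem_filter] at hab
    obtain ⟨h2, h3, h4⟩ := hab
    rw [mem_union, mem_union, hP1, hP2, hP3, mem_filter, mem_filter, mem_filter, mem_sdiff]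
    by_cases h5 : g * (ab.1 * ab.2) ∈ X
    · left; exact ⟨h2, h3, h5⟩
    · right
      rcases h4 with h4 | h4
      · left; exact ⟨h2, h4, h5⟩
      · right; exact ⟨h2, h4⟩
  have hn : (0 : ℝ) ≤ X.card := Nat.cast_nonneg _
  -- first part
  have hb1 : (P1.card : ℝ) ≤ β * (X.card : ℝ) ^ 2 := by
    have h2 : P1.card = ∑ t ∈ X, (P1.filter fun ab => g * (ab.1 * ab.2) = t).card := by
      apply card_eq_sum_card_fiberwise
      intro ab hab
      rw [mem_coe, hP1, mem_filter] at hab
      exact hab.2.2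
    have h3 : ∀ t ∈ X, ((P1.filter fun ab => g * (ab.1 * ab.2) = t).card : ℝ) ≤ β * X.card := by
      intro t _
      by_cases hne : (P1.filter fun ab => g * (ab.1 * ab.2) = t).Nonempty
      · obtain ⟨ab, hab⟩ := hne
        rw [mem_filter, hP1, mem_filter] at hab
        obtain ⟨⟨_, h4, _⟩, h5⟩ := hab
        have h6 : ab.1 * ab.2 = g⁻¹ * t := by rw [← h5]; group
        rw [h6, ← ct_inv] at h4
        refine le_trans ?_ h4.le
        have h7 : (P1.filter fun ab => g * (ab.1 * ab.2) = t).card ≤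
            ct (g⁻¹ * t)⁻¹ X X := by
          refine card_le_card_of_injOn (fun ab => ab.1) ?_ ?_
          · intro cd hcd
            rw [mem_coe, mem_filter, hP1, mem_filter, mem_product] at hcd
            obtain ⟨⟨⟨h8, h9⟩, _, _⟩, h10⟩ := hcd
            rw [mem_coe, mem_filter]
            refine ⟨h8, ?_⟩
            have h11 : (g⁻¹ * t)⁻¹ * cd.1 = cd.2⁻¹ := by rw [← h10]; group
            simp only
            rw [h11]
            exact hX.inv _ h9
          · intro cd hcd cd' hcd' hcc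
            rw [mem_coe, mem_filter] at hcd hcd'
            have h8 : g * (cd.1 * cd.2) = g * (cd'.1 * cd'.2) := hcd.2.trans hcd'.2.symm
            have h9 : cd.1 = cd'.1 := hcc
            rw [h9] at h8
            have h10 := mul_left_cancel (mul_left_cancel h8)
            exact Prod.ext h9 h10
        exact_mod_cast h7
      · rw [not_nonempty_iff_eq_empty] at hne
        rw [hne]
        simp only [card_empty, Nat.cast_zero]
        linarith
    have h4 : (P1.card : ℝ) = ∑ t ∈ X, ((P1.filter fun ab => g * (ab.1 * ab.2) = t).card : ℝ) := by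
      exact_mod_cast h2
    rw [h4]
    refine (sum_le_sum h3).trans ?_
    rw [sum_const, nsmul_eq_mul]
    apply le_of_eq; ring
  have fib : ∀ P : Finset (Γ × Γ), (∀ ab ∈ P, ab.1 ∈ X) → (∀ a ∈ X,
      ((P.filter fun ab => ab.1 = a).card : ℝ) ≤ β * X.card) →
      (P.card : ℝ) ≤ β * (X.card : ℝ) ^ 2 := by
    intro P hPX hPc
    have h2 : P.card = ∑ a ∈ X, (P.filter fun ab => ab.1 = a).card :=
      card_eq_sum_card_fiberwise hPX
    have h4 : (P.card : ℝ) = ∑ a ∈ X, ((P.filter fun ab => ab.1 = a).card : ℝ) := by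
      exact_mod_cast h2
    rw [h4]
    refine (sum_le_sum hPc).trans ?_
    rw [sum_const, nsmul_eq_mul]
    apply le_of_eq; ring
  have hb2 : (P2.card : ℝ) ≤ β * (X.card : ℝ) ^ 2 := by
    apply fib
    · intro ab hab
      rw [hP2, mem_filter, mem_product] at hab
      exact hab.1.1
    · intro a _
      refine le_trans ?_ (hs (g * a))
      have h7 : (P2.filter fun ab => ab.1 = a).card ≤ ct (g * a) X (A \ X) := by
        refine card_le_card_of_injOn (fun ab => ab.2) ?_ ?_
        · intro cd hcd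
          rw [mem_coe, mem_filter, hP2, mem_filter, mem_product] at hcd
          obtain ⟨⟨⟨h8, h9⟩, h10⟩, h11⟩ := hcd
          rw [mem_coe, mem_filter]
          refine ⟨h9, ?_⟩
          simp only
          rw [← h11, mul_assoc]
          exact h10
        · intro cd hcd cd' hcd' hcc
          rw [mem_coe, mem_filter] at hcd hcd'
          exact Prod.ext (hcd.2.trans hcd'.2.symm) hcc
      exact_mod_cast h7
  have hb3 : (P3.card : ℝ) ≤ β * (X.card : ℝ) ^ 2 := by
    apply fib
    · intro ab hab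
      rw [hP3, mem_filter, mem_product] at hab
      exact hab.1.1
    · intro a _
      refine le_trans ?_ h1
      have h7 : (P3.filter fun ab => ab.1 = a).card ≤ 1 := by
        rw [card_le_one]
        intro cd hcd cd' hcd'
        rw [mem_filter, hP3, mem_filter] at hcd hcd'
        have h8 : g * (cd.1 * cd.2) = g * (cd'.1 * cd'.2) := hcd.1.2.trans hcd'.1.2.symm
        have h9 : cd.1 = cd'.1 := hcd.2.trans hcd'.2.symm
        rw [h9] at h8
        exact Prod.ext h9 (mul_left_cancel (mul_left_cancel h8))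
      exact_mod_cast h7
  have h2 := (card_le_card hsub).trans ((card_union_le _ _).trans
    (Nat.add_le_add_left (card_union_le _ _) _))
  have h3 : ((((X ×ˢ X).filter fun ab : Γ × Γ => (ct (ab.1 * ab.2) X X : ℝ) < β * X.card ∧
      (g * (ab.1 * ab.2) ∈ A ∨ g * (ab.1 * ab.2) = 1)).card : ℕ) : ℝ) ≤
      P1.card + (P2.card + P3.card) := by exact_mod_cast h2
  linarith


open Classical in
/-- few labellings have a bad pair -/
theorem few {Γ : Type} [Group Γ] {A X : Finset Γ} (hX : Sy X) {par : ℕ → ℕ} (m : ℕ)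
    (β : ℝ) (h1 : 1 ≤ β * X.card) (hs : ∀ z : Γ, (ct z X (A \ X) : ℝ) ≤ β * X.card)
    (u v : ℕ) (hv : v < m + 1) (hpv : par v < v) (hp1 : par (par v) < par v)
    (huv : ¬ An par (par v) u) :
    (((Fintype.piFinset fun _ : Fin (m + 1) => X).filter fun l =>
      Bd A X par m β u v l).card : ℝ) ≤
      3 * β * (X.card : ℝ) ^ (m + 1) := by
  by_cases hXne : X.Nonempty
  swap
  · rw [not_nonempty_iff_eq_empty] at hXne
    rw [hXne] at h1
    simp at h1
    linarith
  have hn : (0 : ℝ) < X.card := by exact_mod_cast hXne.card_pos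
  have hβ : 0 < β := by
    by_contra hcon
    push Not at hcon
    nlinarith
  obtain ⟨B, hB⟩ : ∃ B, B = (Fintype.piFinset fun _ : Fin (m + 1) => X).filter fun l =>
      Bd A X par m β u v l := ⟨_, rfl⟩
  rw [← hB]
  have hp : par v < m + 1 := by omega
  have h2 := count_two X B ⟨par v, hp⟩ ⟨v, hv⟩ (by
      intro h
      rw [Fin.mk.injEq] at h
      omega) (by
      intro l hl i
      rw [hB, mem_filter, Fintype.mem_piFinset] at hl
      exact hl.1 i) ⌊3 * β * (X.card : ℝ) ^ 2⌋₊ (by
      intro l hl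
      apply Nat.le_floor
      obtain ⟨g, hg⟩ : ∃ g, g = (pos par (ex l) u)⁻¹ * pos par (ex l) (par (par v)) := ⟨_, rfl⟩
      refine le_trans ?_ (pairs_bound hX β h1 hs g)
      have hsub : ((X ×ˢ X).filter fun ab : Γ × Γ =>
          Function.update (Function.update l ⟨par v, hp⟩ ab.1) ⟨v, hv⟩ ab.2 ∈ B) ⊆
          (X ×ˢ X).filter fun ab : Γ × Γ => (ct (ab.1 * ab.2) X X : ℝ) < β * X.card ∧
            (g * (ab.1 * ab.2) ∈ A ∨ g * (ab.1 * ab.2) = 1) := by
        rintro ⟨a, b⟩ hab
        rw [mem_filter] at hab ⊢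
        refine ⟨hab.1, ?_⟩
        have h3 := hab.2
        rw [hB, mem_filter] at h3
        have h4 := h3.2
        unfold Bd at h4
        simp only [ex_update] at h4
        obtain ⟨e', he'⟩ : ∃ e', e' = Function.update (Function.update (ex l) (par v) a) v b :=
          ⟨_, rfl⟩
        rw [← he'] at h4
        have e1 : e' v = b := by rw [he', Function.update_self]
        have e2 : e' (par v) = a := by
          rw [he', Function.update_of_ne (by omega), Function.update_self]
        have e3 : pos par e' u = pos par (ex l) u := by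
          apply pos_congr
          intro j hj
          have h5 : j ≠ par v := by rintro rfl; exact huv hj
          have h6 : j ≠ v := by rintro rfl; exact huv (hj.par hpv)
          rw [he', Function.update_of_ne h6, Function.update_of_ne h5]
        have e4 : pos par e' (par (par v)) = pos par (ex l) (par (par v)) := by
          apply pos_congr
          intro j hj
          have := hj.le
          rw [he', Function.update_of_ne (by omega), Function.update_of_ne (by omega)]
        have e5 : (pos par e' u)⁻¹ * pos par e' v = g * (a * b) := by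
          rw [pos_par par e' v hpv, pos_par par e' (par v) hp1, e1, e2, e3, e4, hg]
          group
        rw [e1, e2, e5] at h4
        exact h4
      exact_mod_cast card_le_card hsub)
  rw [Fintype.card_fin] at h2
  have h3 : (B.card : ℝ) * (X.card : ℝ) ^ 2 ≤
      (X.card : ℝ) ^ (m + 1) * (3 * β * (X.card : ℝ) ^ 2) := by
    have h4 : (B.card : ℝ) * (X.card : ℝ) ^ 2 ≤
      (X.card : ℝ) ^ (m + 1) * (⌊3 * β * (X.card : ℝ) ^ 2⌋₊ : ℝ) := by exact_mod_cast h2
    refine h4.trans (mul_le_mul_of_nonneg_left (Nat.floor_le (by positivity)) (by positivity))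
  have h5 : (0 : ℝ) < (X.card : ℝ) ^ 2 := by positivity
  have h6 : (B.card : ℝ) * (X.card : ℝ) ^ 2 ≤
      (3 * β * (X.card : ℝ) ^ (m + 1)) * (X.card : ℝ) ^ 2 := by
    refine h3.trans (le_of_eq ?_); ring
  exact le_of_mul_le_mul_right h6 h5

open Classical in
/-- in a graph without the tree many elements are in heavy pairs mostly -/
theorem light (m : ℕ) (par : ℕ → ℕ) (hpar : ∀ i, 1 ≤ i → par i < i) (ε : ℝ) (hε : 0 < ε) (hε1 : ε ≤ 1) :
    ∃ β S₀ : ℝ, 0 < β ∧ 0 < S₀ ∧ ∀ (Γ : Type) [Group Γ] (A X : Finset Γ), Sy A →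
      (cay (A : Set Γ)).CliqueFree 4 → X ⊆ A → Sy X → S₀ ≤ X.card →
      (∀ z, (ct z X (A \ X) : ℝ) ≤ β * X.card) → ¬ Tr A par m {1} →
      ε / 2 * X.card ≤ ((X.filter fun x => ((X.filter fun y =>
        (ct (x * y) X X : ℝ) < β * X.card).card : ℝ) ≤ ε * X.card).card : ℝ) := by
  obtain ⟨t, ht⟩ : ∃ t : ℝ, t = ε / (4 * (m + 1)) := ⟨_, rfl⟩
  have hm1 : (0 : ℝ) < (m : ℝ) + 1 := by positivity
  have ht0 : 0 < t := by rw [ht]; positivity
  have hεt : ε / 2 = 2 * (m + 1) * t := by
    rw [ht]; field_simp; ring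
  obtain ⟨β, hβ⟩ : ∃ β : ℝ, β = t ^ (m + 1) / (4 * (m + 1) ^ 2) := ⟨_, rfl⟩
  have hβ0 : 0 < β := by rw [hβ]; positivity
  refine ⟨β, m / t + 1 / β, hβ0, by positivity, ?_⟩
  intro Γ _ A X hA hK hXA hX hbig hs hno
  by_contra hcon
  push Not at hcon
  have hn1 : (m : ℝ) ≤ t * X.card := by
    have h1 : (m : ℝ) / t ≤ X.card := by
      have : 0 < 1 / β := by positivity
      linarith
    rw [div_le_iff₀ ht0] at h1
    linarith
  have hn2 : 1 ≤ β * X.card := by
    have h1 : 1 / β ≤ X.card := by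
      have : 0 ≤ (m : ℝ) / t := by positivity
      linarith
    rw [div_le_iff₀ hβ0] at h1
    linarith
  have hXne : X.Nonempty := by
    rw [nonempty_iff_ne_empty]
    rintro rfl
    simp at hn2
    linarith
  have hn : (0 : ℝ) < X.card := by exact_mod_cast hXne.card_pos
  obtain ⟨R, hR⟩ : ∃ R : Γ → Γ → Prop, R = fun x y => (ct (x * y) X X : ℝ) < β * X.card :=
    ⟨_, rfl⟩
  obtain ⟨S, hSdef⟩ : ∃ S : Finset Γ, S = X.filter fun x => ¬ ((X.filter fun y =>
        (ct (x * y) X X : ℝ) < β * X.card).card : ℝ) ≤ ε * X.card := ⟨_, rfl⟩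
  have hSX : S ⊆ X := by rw [hSdef]; exact filter_subset _ _
  have hXS : ((X \ S).card : ℝ) ≤ ε / 2 * X.card := by
    refine le_trans ?_ hcon.le
    have : X \ S ⊆ X.filter fun x => ((X.filter fun y =>
        (ct (x * y) X X : ℝ) < β * X.card).card : ℝ) ≤ ε * X.card := by
      intro x hx
      rw [mem_sdiff, hSdef, mem_filter] at hx
      rw [mem_filter]
      refine ⟨hx.1, ?_⟩
      by_contra h
      exact hx.2 ⟨hx.1, h⟩
    exact_mod_cast card_le_card this
  have hS : ∀ x ∈ S, ε / 2 * X.card ≤ ((S.filter fun y => R x y).card : ℝ) := by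
    intro x hx
    rw [hSdef, mem_filter] at hx
    have h1 : ε * X.card < ((X.filter fun y => R x y).card : ℝ) := by
      rw [hR]
      exact not_le.1 hx.2
    have h2 : (X.filter fun y => R x y) ⊆ (S.filter fun y => R x y) ∪ (X \ S) := by
      intro y hy
      rw [mem_filter] at hy
      rw [mem_union, mem_filter, mem_sdiff]
      by_cases h3 : y ∈ S
      · left; exact ⟨h3, hy.2⟩
      · right; exact ⟨hy.1, h3⟩
    have h3 : ((X.filter fun y => R x y).card : ℝ) ≤
        ((S.filter fun y => R x y).card : ℝ) + ((X \ S).card : ℝ) := by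
      exact_mod_cast (card_le_card h2).trans (card_union_le _ _)
    linarith
  obtain ⟨x₀, hx₀⟩ : S.Nonempty := by
    rw [nonempty_iff_ne_empty]
    intro h
    rw [h, sdiff_empty] at hXS
    nlinarith
  have hcand : ∀ x ∈ S, ∃ Q ⊆ S.filter fun y => R x y, ∀ J ⊆ Q, J.card ≤ m →
      t * X.card ≤ ((Q.filter fun y => ∀ j ∈ J, j⁻¹ * y ∉ A ∧ j ≠ y).card : ℝ) := by
    intro x hx
    apply cand hA hK _ _ m (2 * (t * X.card)) (t * X.card)
    · positivity
    · linarith
    · refine le_trans ?_ (hS x hx)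
      rw [hεt]
      nlinarith
    · intro y hy
      exact hXA (hSX (mem_filter.1 hy).1)
  choose! Q hQ1 hQ2 using hcand
  have hQS : ∀ x ∈ S, Q x ⊆ S := fun x hx => (hQ1 x hx).trans (filter_subset _ _)
  have hSc : t * X.card ≤ (S.card : ℝ) := by
    have h1 := hS x₀ hx₀
    have h2 : ((S.filter fun y => R x₀ y).card : ℝ) ≤ S.card := by
      exact_mod_cast card_filter_le _ _
    have h3 : t * X.card ≤ ε / 2 * X.card := by
      apply mul_le_mul_of_nonneg_right _ hn.le
      rw [hεt]
      nlinarith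
    linarith
  have hmany := many hpar m t ht0.le hSX hSc hXne hQS hQ2 (m + 1) le_rfl
  obtain ⟨G, hG⟩ : ∃ G, G = (Fintype.piFinset fun _ : Fin (m + 1) => X).filter fun l =>
        Al A S Q par m (m + 1) l := ⟨_, rfl⟩
  rw [← hG] at hmany
  obtain ⟨B, hB⟩ : ∃ B : ℕ × ℕ → Finset (Fin (m + 1) → Γ), B = fun uv =>
    if par uv.2 < uv.2 ∧ par (par uv.2) < par uv.2 ∧ ¬ An par (par uv.2) uv.1 then
      (Fintype.piFinset fun _ : Fin (m + 1) => X).filter fun l =>
      Bd A X par m β uv.1 uv.2 l else ∅ := ⟨_, rfl⟩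
  have hBc : ∀ uv ∈ range (m + 1) ×ˢ range (m + 1), ((B uv).card : ℝ) ≤
      3 * β * (X.card : ℝ) ^ (m + 1) := by
    rintro ⟨u, v⟩ huv
    rw [mem_product, mem_range, mem_range] at huv
    rw [hB]
    simp only
    split_ifs with h
    · exact few hX m β hn2 hs u v huv.2 h.1 h.2.1 h.2.2
    · simp only [card_empty, Nat.cast_zero]
      positivity
  have hun : ((((range (m + 1) ×ˢ range (m + 1)).biUnion B).card : ℕ) : ℝ) < G.card := by
    have h1 : ((((range (m + 1) ×ˢ range (m + 1)).biUnion B).card : ℕ) : ℝ) ≤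
        ∑ uv ∈ range (m + 1) ×ˢ range (m + 1), ((B uv).card : ℝ) := by
      exact_mod_cast card_biUnion_le
    have h2 := sum_le_sum hBc
    rw [sum_const, nsmul_eq_mul, card_product, card_range] at h2
    push_cast at h2
    have h3 : ((m : ℝ) + 1) * ((m : ℝ) + 1) * (3 * β * (X.card : ℝ) ^ (m + 1)) =
        3 / 4 * (t ^ (m + 1) * (X.card : ℝ) ^ (m + 1)) := by
      rw [hβ]; field_simp
    have h4 : 0 < t ^ (m + 1) * (X.card : ℝ) ^ (m + 1) := by positivity
    linarith
  obtain ⟨l, hlG, hlB⟩ : ∃ l ∈ G, l ∉ (range (m + 1) ×ˢ range (m + 1)).biUnion B := by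
    by_contra hc
    push Not at hc
    have := card_le_card hc
    have h1 : (G.card : ℝ) ≤ ((((range (m + 1) ×ˢ range (m + 1)).biUnion B).card : ℕ) : ℝ) := by
      exact_mod_cast this
    linarith
  rw [hG, mem_filter] at hlG
  obtain ⟨hlX, hok⟩ := hlG
  have hmem := ok_mem hpar hQS hok
  -- avoided pairs
  have hav : ∀ u v, u < m + 1 → v < m + 1 → 1 ≤ v → ¬ An par (par v) u →
      (pos par (ex l) u)⁻¹ * pos par (ex l) v ∉ A ∧
        (pos par (ex l) u)⁻¹ * pos par (ex l) v ≠ 1 := by
    intro u v hu hv hv1 han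
    have h1 := hpar v hv1
    have h2 : 1 ≤ par v := by
      rcases Nat.eq_zero_or_pos (par v) with h3 | h3
      · exfalso
        apply han
        rw [h3]
        exact An.zero hpar u
      · exact h3
    have h3 := hpar _ h2
    have h4 : l ∉ B (u, v) := by
      intro h5
      apply hlB
      rw [mem_biUnion]
      exact ⟨(u, v), by rw [mem_product, mem_range, mem_range]; exact ⟨hu, hv⟩, h5⟩
    rw [hB] at h4
    simp only at h4
    rw [if_pos ⟨h1, h3, han⟩, mem_filter] at h4
    have h5 : (ct (ex l (par v) * ex l v) X X : ℝ) < β * X.card := by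
      have h6 := hQ1 _ (hmem _ (h1.trans hv)) ((hok v hv).2 hv1).1
      rw [mem_filter, hR] at h6
      exact h6.2
    constructor
    · intro h6
      exact h4 ⟨hlX, h5, Or.inl h6⟩
    · intro h6
      exact h4 ⟨hlX, h5, Or.inr h6⟩
  apply hno
  refine ⟨pos par (ex l), ?_⟩
  intro i j hij hj
  have hj1 : 1 ≤ j := by omega
  have hpj := hpar j hj1
  have hjm : j < m + 1 := by omega
  have him : i < m + 1 := by omega
  by_cases hpi : par j = i
  · have h1 : (pos par (ex l) i)⁻¹ * pos par (ex l) j = ex l j := by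
      rw [pos_par par (ex l) j hpj, hpi]; group
    have h2 : ex l j ∈ A := hXA (hSX (hmem j hjm))
    rw [h1]
    refine ⟨fun _ => h2, fun h3 => absurd hpi h3, ?_⟩
    rw [Set.mem_singleton_iff]
    intro h3
    rw [h3] at h2
    exact hA.one h2
  · have key : (pos par (ex l) i)⁻¹ * pos par (ex l) j ∉ A ∧
        (pos par (ex l) i)⁻¹ * pos par (ex l) j ≠ 1 := by
      by_cases hsib : 1 ≤ i ∧ par i = par j
      · obtain ⟨hi1, hpp⟩ := hsib
        have h1 : (pos par (ex l) i)⁻¹ * pos par (ex l) j = (ex l i)⁻¹ * ex l j := by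
          rw [pos_par par (ex l) j hpj, pos_par par (ex l) i (hpar i hi1), hpp]; group
        rw [h1]
        obtain ⟨h2, h3⟩ := ((hok j hjm).2 hj1).2 i hi1 hij hpp
        refine ⟨h2, ?_⟩
        intro h4
        apply h3
        have : ex l i * ((ex l i)⁻¹ * ex l j) = ex l i * 1 := by rw [h4]
        rw [mul_one, mul_inv_cancel_left] at this
        exact this.symm
      · by_cases han : An par (par j) i
        · have hi1 : 1 ≤ i := by
            rcases Nat.eq_zero_or_pos i with rfl | h
            · exfalso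
              have := han.le
              exact hpi (by omega)
            · exact h
          have han' : ¬ An par (par i) j := by
            intro h2
            apply hsib
            refine ⟨hi1, An.sib han h2 hpi ?_⟩
            have := hpar i hi1
            omega
          obtain ⟨h1, h2⟩ := hav j i hjm him hi1 han'
          have h3 : ((pos par (ex l) j)⁻¹ * pos par (ex l) i)⁻¹ =
              (pos par (ex l) i)⁻¹ * pos par (ex l) j := by group
          rw [← h3]
          refine ⟨?_, ?_⟩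
          · rw [hA.inv_iff]; exact h1
          · intro h4
            exact h2 (inv_eq_one.1 h4)
        · exact hav i j him hjm hj1 han
    exact ⟨fun h => absurd h hpi, fun _ => key.1, key.2⟩

end Pool.Agent.H57.FC
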