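import Pool.Agent.H57.FC.Light
import Pool.Agent.H57.NC.Near

/-!
# Many near-periods: arbitrary groups
-/

set_option autoImplicit false

open Finset

namespace Pool.Agent.H57.FC

open Pool.Agent.W259.GS (Sh)
open Pool.Agent.K4H78.TW (df mem_df cluster)
open Pool.Agent.H57.NC (cay ct ct_mono ct_le ct_inv ct_mul nm tn Tr pop_card)

open Classical in
/-- many near-periods -/
theorem near (m : ℕ) (par : ℕ → ℕ) (hpar : ∀ i, 1 ≤ i → par i < i) (N₀ : ℕ) (κ : ℝ)
    (hκ : 0 < κ) (hκ1 : κ ≤ 1) :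
    ∃ η K : ℝ, 0 < η ∧ 0 < K ∧ ∀ (Γ : Type) [Group Γ] [Fintype Γ] (A X : Finset Γ), Sy A →
      (cay (A : Set Γ)).CliqueFree 4 → (∀ Y : Finset Γ, Sh (cay (A : Set Γ)) Y Set.univ →
        Y.card < N₀) → X ⊆ A → Sy X → X.Nonempty →
      (∀ z, (ct z X (A \ X) : ℝ) ≤ η * X.card) → ¬ Tr A par m {1} →
      (X.card : ℝ) ≤ K * (((univ : Finset Γ).filter fun g => nm X g ≤ κ).card : ℝ) := by
  obtain ⟨β, S₀, hβ, hS₀, hL⟩ := light m par hpar (κ / 4) (by positivity) (by linarith)
  obtain ⟨C, d, hC1, hC⟩ := cluster N₀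
  obtain ⟨q, hq⟩ : ∃ q : ℕ, q = ⌈4 / (κ * β)⌉₊ := ⟨_, rfl⟩
  have hq1 : 4 / (κ * β) ≤ q := by rw [hq]; exact Nat.le_ceil _
  have hq0 : (0 : ℝ) < q := lt_of_lt_of_le (by positivity) hq1
  have hq2 : 1 ≤ q := by
    have : 0 < q := by exact_mod_cast hq0
    exact this
  refine ⟨min β (κ / 4), S₀ + 8 / κ * (C * q ^ d), lt_min hβ (by positivity), by positivity, ?_⟩
  intro Γ _ _ A X hA hK hSh hXA hX hXne hs hno
  have hn : (0 : ℝ) < X.card := by exact_mod_cast hXne.card_pos
  have hnr := nm_nl hXne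
  obtain ⟨B, hB⟩ : ∃ B : Finset Γ, B = (univ : Finset Γ).filter fun g => nm X g ≤ κ := ⟨_, rfl⟩
  rw [← hB]
  have hB1 : (1 : ℝ) ≤ B.card := by
    have : (1 : Γ) ∈ B := by
      rw [hB, mem_filter]
      exact ⟨mem_univ _, by rw [hnr.one]; exact hκ.le⟩
    exact_mod_cast card_pos.2 ⟨_, this⟩
  have hCq : (0 : ℝ) ≤ 8 / κ * ((C : ℝ) * (q : ℝ) ^ d) := by positivity
  by_cases hbig : S₀ ≤ X.card
  swap
  · push Not at hbig
    calc (X.card : ℝ) ≤ S₀ * 1 := by linarith
      _ ≤ S₀ * B.card := mul_le_mul_of_nonneg_left hB1 hS₀.le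
      _ ≤ _ := mul_le_mul_of_nonneg_right (by linarith) (by linarith)
  have hL' := hL Γ A X hA hK hXA hX hbig (fun z => (hs z).trans
    (mul_le_mul_of_nonneg_right (min_le_left _ _) hn.le)) hno
  obtain ⟨bd, hbd⟩ : ∃ bd : Γ → Finset Γ, bd = fun x =>
    X.filter fun y => (ct (x * y) X X : ℝ) < β * X.card := ⟨_, rfl⟩
  -- heavy elements
  obtain ⟨H, hH⟩ : ∃ H : Finset Γ, H = X.filter fun x => ((bd x).card : ℝ) ≤ κ / 4 * X.card :=
    ⟨_, rfl⟩
  have hHX : H ⊆ X := by rw [hH]; exact filter_subset _ _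
  have hHc : (X.card : ℝ) ≤ 8 / κ * H.card := by
    have h1 : κ / 4 / 2 * X.card ≤ (H.card : ℝ) := by
      rw [hH, hbd]; exact hL'
    have h2 : 8 / κ * (κ / 4 / 2 * X.card) ≤ 8 / κ * (H.card : ℝ) :=
      mul_le_mul_of_nonneg_left h1 (by positivity)
    have h3 : 8 / κ * (κ / 4 / 2 * X.card) = X.card := by field_simp; ring
    linarith
  -- window
  obtain ⟨W, hW⟩ : ∃ W : Finset Γ, W = (univ : Finset Γ).filter fun z =>
    β * X.card ≤ (ct z X X : ℝ) := ⟨_, rfl⟩
  have hWc : β * (W.card : ℝ) ≤ X.card := by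
    have h1 := pop_card X β
    rw [← hW] at h1
    have h2 : β * (W.card : ℝ) * X.card ≤ X.card * X.card := by
      calc β * (W.card : ℝ) * X.card = W.card * (β * X.card) := by ring
        _ ≤ _ := h1
        _ = _ := by ring
    exact le_of_mul_le_mul_right h2 hn
  obtain ⟨X', hX'H, hX'c, hX'⟩ := hC Γ (cay (A : Set Γ)) W H q hq2 hSh
  have hHne : H.Nonempty := by
    rw [nonempty_iff_ne_empty]
    rintro h
    rw [h] at hHc
    simp only [card_empty, Nat.cast_zero, mul_zero] at hHc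
    linarith
  have hX'ne : X'.Nonempty := by
    rw [nonempty_iff_ne_empty]
    intro h
    rw [h, card_empty, mul_zero] at hX'c
    have := hHne.card_pos
    omega
  obtain ⟨x₀, hx₀⟩ := hX'ne
  have hkey : ∀ x ∈ X', x₀⁻¹ * x ∈ B := by
    intro x hx
    rw [hB, mem_filter]
    refine ⟨mem_univ _, ?_⟩
    have hdf : ((df (cay (A : Set Γ)) W x x₀).card : ℝ) ≤ κ / 4 * X.card := by
      have h1 : (q : ℝ) * ((df (cay (A : Set Γ)) W x x₀).card : ℝ) ≤ W.card := by
        exact_mod_cast hX' x hx x₀ hx₀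
      have h2 : (4 / (κ * β)) * ((df (cay (A : Set Γ)) W x x₀).card : ℝ) ≤ W.card :=
        le_trans (mul_le_mul_of_nonneg_right hq1 (Nat.cast_nonneg _)) h1
      have h3 : β * ((4 / (κ * β)) * ((df (cay (A : Set Γ)) W x x₀).card : ℝ)) ≤ X.card :=
        (mul_le_mul_of_nonneg_left h2 hβ.le).trans hWc
      have h4 : β * ((4 / (κ * β)) * ((df (cay (A : Set Γ)) W x x₀).card : ℝ)) =
          4 / κ * ((df (cay (A : Set Γ)) W x x₀).card : ℝ) := by
        field_simp
      rw [h4] at h3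
      have h5 : κ / 4 * (4 / κ * ((df (cay (A : Set Γ)) W x x₀).card : ℝ)) ≤
          κ / 4 * X.card := mul_le_mul_of_nonneg_left h3 (by positivity)
      have h6 : κ / 4 * (4 / κ * ((df (cay (A : Set Γ)) W x x₀).card : ℝ)) =
          ((df (cay (A : Set Γ)) W x x₀).card : ℝ) := by
        field_simp
      rwa [h6] at h5
    have hbdx : ((bd x).card : ℝ) ≤ κ / 4 * X.card := by
      have := hX'H hx
      rw [hH, mem_filter] at this
      exact this.2
    have hs' := (hs (x₀⁻¹ * x)).trans (mul_le_mul_of_nonneg_right (min_le_right _ _) hn.le)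
    have hsub : X ⊆ (X.filter fun b => x₀⁻¹ * x * b ∈ X) ∪ (bd x ∪
        ((X.filter fun b => x * b ∈ df (cay (A : Set Γ)) W x x₀) ∪
          X.filter fun b => x₀⁻¹ * x * b ∈ A \ X)) := by
      intro b hb
      rw [mem_union, mem_union, mem_union, hbd]
      simp only [mem_filter, mem_sdiff]
      by_cases h1 : x₀⁻¹ * x * b ∈ X
      · left; exact ⟨hb, h1⟩
      right
      by_cases h2 : (ct (x * b) X X : ℝ) < β * X.card
      · left; exact ⟨hb, h2⟩
      right
      by_cases h3 : x₀⁻¹ * x * b ∈ A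
      · right; exact ⟨hb, h3, h1⟩
      left
      refine ⟨hb, ?_⟩
      rw [mem_df, hW, mem_filter, cay_adj hA, cay_adj hA]
      refine ⟨⟨mem_univ _, not_lt.1 h2⟩, ?_⟩
      intro h4
      apply h3
      rw [mul_assoc]
      apply h4.1
      rw [inv_mul_cancel_left]
      exact hXA hb
    have h1 := card_le_card hsub
    have h2 := h1.trans ((card_union_le _ _).trans (Nat.add_le_add_left
      ((card_union_le _ _).trans (Nat.add_le_add_left (card_union_le _ _) _)) _))
    have h3 : (X.filter fun b => x * b ∈ df (cay (A : Set Γ)) W x x₀).card ≤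
        (df (cay (A : Set Γ)) W x x₀).card := by
      refine card_le_card_of_injOn (fun b => x * b) ?_ ?_
      · intro b hb
        rw [mem_coe, mem_filter] at hb
        exact hb.2
      · intro b _ c _ h
        exact mul_left_cancel h
    have h4 : (X.card : ℝ) ≤ ct (x₀⁻¹ * x) X X + ((bd x).card +
        ((df (cay (A : Set Γ)) W x x₀).card + ct (x₀⁻¹ * x) X (A \ X))) := by
      have : X.card ≤ ct (x₀⁻¹ * x) X X + ((bd x).card +
        ((df (cay (A : Set Γ)) W x x₀).card + ct (x₀⁻¹ * x) X (A \ X))) := by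
        refine h2.trans ?_
        unfold ct
        omega
      exact_mod_cast this
    unfold nm
    have h5 : (1 - κ) * X.card ≤ ct (x₀⁻¹ * x) X X := by nlinarith
    have h6 : 1 - κ ≤ (ct (x₀⁻¹ * x) X X : ℝ) / X.card := by
      rw [le_div_iff₀ hn]; exact h5
    linarith
  have hcard : (X'.card : ℝ) ≤ B.card := by
    have : X'.card ≤ B.card := by
      refine card_le_card_of_injOn (fun x => x₀⁻¹ * x) ?_ ?_
      · intro x hx
        exact hkey x hx
      · intro x _ y _ h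
        exact mul_left_cancel h
    exact_mod_cast this
  have h1 : (H.card : ℝ) ≤ C * q ^ d * X'.card := by exact_mod_cast hX'c
  calc (X.card : ℝ) ≤ 8 / κ * H.card := hHc
    _ ≤ 8 / κ * (C * q ^ d * X'.card) := mul_le_mul_of_nonneg_left h1 (by positivity)
    _ = 8 / κ * (C * q ^ d) * X'.card := by ring
    _ ≤ 8 / κ * (C * q ^ d) * B.card := mul_le_mul_of_nonneg_left hcard hCq
    _ ≤ _ := mul_le_mul_of_nonneg_right (by linarith) (by linarith)

end Pool.Agent.H57.FC
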