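import Pool.Agent.H57.FC.Stage

/-!
# Groups in which a positive proportion of the pairs commutes
-/

set_option autoImplicit false

open Finset

namespace Pool.Agent.H57.FC

/-- thresholds -/
def thr (k : ℕ) (i : ℕ) : ℕ := k ^ (2 ^ i)

theorem thr_succ (k i : ℕ) : thr k (i + 1) = thr k i * thr k i := by
  unfold thr
  rw [pow_succ, pow_mul, sq]

theorem thr_mono {k : ℕ} (hk : 1 ≤ k) {i j : ℕ} (h : i ≤ j) : thr k i ≤ thr k j := by
  unfold thr
  exact Nat.pow_le_pow_right hk (Nat.pow_le_pow_right (by norm_num) h)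

theorem thr_pos {k : ℕ} (hk : 1 ≤ k) (i : ℕ) : 1 ≤ thr k i := by
  unfold thr
  exact Nat.one_le_pow _ _ hk

open Classical in
/-- many elements with few conjugates give a large subgroup of such elements -/
theorem few_sub {Γ : Type} [Group Γ] [Fintype Γ] (k r : ℕ) (hk : 1 ≤ k)
    (hr : Fintype.card Γ < r * ((univ : Finset Γ).filter fun x => idx x ≤ k).card) :
    ∃ H : Subgroup Γ, (∀ h ∈ H, idx h ≤ thr k (2 * r)) ∧ ∀ x, idx x ≤ k → x ∈ H := by
  obtain ⟨S, hS⟩ : ∃ S : Finset Γ, S = (univ : Finset Γ).filter fun x => idx x ≤ k := ⟨_, rfl⟩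
  rw [← hS] at hr
  have h0 : thr k 0 = k := by unfold thr; simp
  by_cases hst : ∃ i, i < r ∧ ∀ x : Γ, idx x ≤ thr k (2 * i + 1) → idx x ≤ thr k (2 * i)
  · obtain ⟨i, hi, hst⟩ := hst
    let H : Subgroup Γ :=
      { carrier := {x | idx x ≤ thr k (2 * i)}
        mul_mem' := by
          intro a b ha hb
          simp only [Set.mem_ofPred_eq] at ha hb ⊢
          apply hst
          rw [thr_succ]
          exact (idx_mul a b).trans (Nat.mul_le_mul ha hb)
        one_mem' := by
          simp only [Set.mem_ofPred_eq]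
          rw [idx_one]
          exact thr_pos hk _
        inv_mem' := by
          intro a ha
          simp only [Set.mem_ofPred_eq] at ha ⊢
          rw [idx_inv]
          exact ha }
    refine ⟨H, ?_, ?_⟩
    · intro h hh
      have h1 : idx h ≤ thr k (2 * i) := hh
      exact h1.trans (thr_mono hk (by omega))
    · intro x hx
      show idx x ≤ thr k (2 * i)
      have h1 : thr k 0 ≤ thr k (2 * i) := thr_mono hk (Nat.zero_le _)
      rw [h0] at h1
      exact hx.trans h1
  · exfalso
    push Not at hst
    choose! x hx1 hx2 using hst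
    have hinj : ∀ i j, i < r → j < r → i < j → ∀ a ∈ S, ∀ b ∈ S, x i * a ≠ x j * b := by
      intro i j hi hj hij a ha b hb h
      have h1 := hx2 j hj
      have h2 : x j = x i * a * b⁻¹ := by rw [h]; group
      rw [hS, mem_filter] at ha hb
      have h3 : idx (x j) ≤ thr k (2 * j) := by
        rw [h2]
        have h4 := idx_mul (x i * a) b⁻¹
        have h5 := idx_mul (x i) a
        rw [idx_inv] at h4
        have h6 : idx a * idx b ≤ thr k (2 * i + 1) := by
          have h7 : idx a * idx b ≤ k * k := Nat.mul_le_mul ha.2 hb.2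
          have h8 : k * k = thr k 1 := by
            have := thr_succ k 0
            rw [h0] at this
            exact this.symm
          rw [h8] at h7
          exact h7.trans (thr_mono hk (by omega))
        calc idx (x i * a * b⁻¹) ≤ idx (x i * a) * idx b := h4
          _ ≤ idx (x i) * idx a * idx b := Nat.mul_le_mul_right _ h5
          _ = idx (x i) * (idx a * idx b) := by ring
          _ ≤ thr k (2 * i + 1) * thr k (2 * i + 1) := Nat.mul_le_mul (hx1 i hi) h6
          _ = thr k (2 * i + 1 + 1) := (thr_succ k (2 * i + 1)).symm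
          _ ≤ thr k (2 * j) := thr_mono hk (by omega)
      omega
    have h1 : (range r ×ˢ S).card ≤ (univ : Finset Γ).card := by
      refine card_le_card_of_injOn (fun p => x p.1 * p.2) (fun _ _ => mem_coe.2 (mem_univ _)) ?_
      rintro ⟨i, a⟩ hia ⟨j, b⟩ hjb h
      rw [mem_coe, mem_product, mem_range] at hia hjb
      simp only at hia hjb h
      rcases lt_trichotomy i j with hij | hij | hij
      · exact absurd h (hinj i j hia.1 hjb.1 hij a hia.2 b hjb.2)
      · subst hij
        rw [mul_left_cancel h]
      · exact absurd h.symm (hinj j i hjb.1 hia.1 hij b hjb.2 a hia.2)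
    rw [card_product, card_range, card_univ] at h1
    omega

open Classical in
/-- large commuting probability gives a subgroup of bounded index whose elements have few
conjugates -/
theorem comm_sub (ε : ℚ) (hε : 0 < ε) :
    ∃ k r : ℕ, ∀ (Γ : Type) [Group Γ] [Finite Γ], ε ≤ commProb Γ →
      ∃ H : Subgroup Γ, (∀ h ∈ H, idx h ≤ k) ∧ H.index ≤ r := by
  obtain ⟨n, hn⟩ : ∃ n : ℕ, n = ⌈2 / ε⌉₊ + 1 := ⟨_, rfl⟩
  have hn1 : 2 / ε < n := by
    have := Nat.le_ceil (2 / ε)
    rw [hn]
    push_cast
    linarith
  have hn0 : 1 ≤ n := by omega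
  have hnq : (0 : ℚ) < n := by exact_mod_cast hn0
  have hn2 : 2 < ε * n := by
    rw [div_lt_iff₀ hε] at hn1
    linarith
  refine ⟨thr n (2 * n), n, ?_⟩
  intro Γ _ _ hΓ
  have : Fintype Γ := Fintype.ofFinite Γ
  obtain ⟨S, hS⟩ : ∃ S : Finset Γ, S = (univ : Finset Γ).filter fun x => idx x ≤ n := ⟨_, rfl⟩
  have hc : (0 : ℚ) < Fintype.card Γ := by exact_mod_cast Fintype.card_pos
  -- the number of commuting pairs
  have hnum : (Nat.card {p : Γ × Γ // Commute p.1 p.2} : ℚ) =
      ∑ x : Γ, (Nat.card (Subgroup.centralizer {x} : Subgroup Γ) : ℚ) := by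
    have h1 : Nat.card {p : Γ × Γ // Commute p.1 p.2} =
        ∑ x : Γ, Nat.card (Subgroup.centralizer {x} : Subgroup Γ) := by
      have h2 : Nat.card {p : Γ × Γ // Commute p.1 p.2} =
          ((univ : Finset (Γ × Γ)).filter fun p => Commute p.1 p.2).card := by
        rw [Nat.card_eq_fintype_card, Fintype.card_subtype]
      rw [h2, card_eq_sum_card_fiberwise (f := fun p : Γ × Γ => p.1) (t := univ)
        (fun _ _ => mem_coe.2 (mem_univ _))]
      apply sum_congr rfl
      intro x _
      have h3 : Nat.card (Subgroup.centralizer {x} : Subgroup Γ) =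
          ((univ : Finset Γ).filter fun y => Commute x y).card := by
        rw [Nat.card_eq_fintype_card, ← Fintype.card_subtype]
        apply Fintype.card_congr
        apply Equiv.subtypeEquivRight
        intro y
        rw [Subgroup.mem_centralizer_singleton_iff]
        exact ⟨fun h => h.symm, fun h => h.symm⟩
      rw [h3]
      refine card_bij (fun p _ => p.2) ?_ ?_ ?_
      · intro p hp
        rw [mem_filter, mem_filter] at hp
        rw [mem_filter]
        refine ⟨mem_univ _, ?_⟩
        rw [← hp.2]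
        exact hp.1.2
      · intro p hp q hq h
        rw [mem_filter] at hp hq
        exact Prod.ext (hp.2.trans hq.2.symm) h
      · intro y hy
        rw [mem_filter] at hy
        refine ⟨(x, y), ?_, rfl⟩
        rw [mem_filter, mem_filter]
        exact ⟨⟨mem_univ _, hy.2⟩, rfl⟩
    rw [h1]
    push_cast
    rfl
  have hcc : ∀ x : Γ, (Nat.card (Subgroup.centralizer {x} : Subgroup Γ) : ℚ) * idx x =
      Fintype.card Γ := by
    intro x
    have h1 := Subgroup.card_mul_index (Subgroup.centralizer {x} : Subgroup Γ)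
    rw [Nat.card_eq_fintype_card (α := Γ)] at h1
    unfold idx
    exact_mod_cast h1
  have hb : ∀ x : Γ, (Nat.card (Subgroup.centralizer {x} : Subgroup Γ) : ℚ) ≤
      (if x ∈ S then (Fintype.card Γ : ℚ) else 0) + (Fintype.card Γ : ℚ) / n := by
    intro x
    have h1 := hcc x
    have h2 : (1 : ℚ) ≤ idx x := by exact_mod_cast idx_pos x
    have h3 : (0 : ℚ) ≤ Nat.card (Subgroup.centralizer {x} : Subgroup Γ) := Nat.cast_nonneg _
    split_ifs with hx
    · have h4 : (0 : ℚ) ≤ (Fintype.card Γ : ℚ) / n := by positivity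
      nlinarith
    · rw [zero_add, le_div_iff₀ hnq, ← h1]
      apply mul_le_mul_of_nonneg_left _ h3
      rw [hS, mem_filter] at hx
      push Not at hx
      have := hx (mem_univ _)
      exact_mod_cast this.le
  have hsum := sum_le_sum fun x (_ : x ∈ (univ : Finset Γ)) => hb x
  rw [← hnum, sum_add_distrib, sum_const, card_univ, nsmul_eq_mul, ← sum_filter, sum_const,
    nsmul_eq_mul] at hsum
  have hfS : ((univ : Finset Γ).filter fun x => x ∈ S) = S := by
    ext x; simp
  rw [hfS] at hsum
  rw [commProb_def, Nat.card_eq_fintype_card (α := Γ)] at hΓ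
  rw [le_div_iff₀ (by positivity)] at hΓ
  have hS2 : (Fintype.card Γ : ℚ) < n * S.card := by
    have h1 : ε * (Fintype.card Γ : ℚ) ^ 2 ≤
        S.card * Fintype.card Γ + Fintype.card Γ * (Fintype.card Γ / n) := hΓ.trans hsum
    have h2 : ε * (Fintype.card Γ : ℚ) * n * Fintype.card Γ ≤
        (n * S.card + Fintype.card Γ) * Fintype.card Γ := by
      have h3 := mul_le_mul_of_nonneg_right h1 hnq.le
      have h4 : (S.card * Fintype.card Γ + Fintype.card Γ * (Fintype.card Γ / n : ℚ)) * n =
          (n * S.card + Fintype.card Γ) * Fintype.card Γ := by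
        field_simp
      rw [h4] at h3
      linarith
    have h5 := le_of_mul_le_mul_right h2 hc
    have h6 : 2 * (Fintype.card Γ : ℚ) < ε * n * Fintype.card Γ :=
      mul_lt_mul_of_pos_right hn2 hc
    linarith
  have hS3 : Fintype.card Γ < n * S.card := by exact_mod_cast hS2
  rw [hS] at hS3
  obtain ⟨H, hH1, hH2⟩ := few_sub n n hn0 hS3
  refine ⟨H, hH1, ?_⟩
  have h1 : S.card ≤ Nat.card H := by
    rw [Nat.card_eq_fintype_card, Fintype.card_subtype]
    apply card_le_card
    intro x hx
    rw [hS, mem_filter] at hx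
    rw [mem_filter]
    exact ⟨mem_univ _, hH2 x hx.2⟩
  have h2 := Subgroup.card_mul_index H
  rw [Nat.card_eq_fintype_card (α := Γ)] at h2
  by_contra hcon
  push Not at hcon
  have h3 : S.card * (n + 1) ≤ Nat.card H * H.index := Nat.mul_le_mul h1 hcon
  rw [h2] at h3
  rw [← hS] at hS3
  nlinarith

end Pool.Agent.H57.FC
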