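import Pool.Agent.H57.FC.Near

/-!
# One stage, for connection sets whose elements have few conjugates
-/

set_option autoImplicit false

open Finset

namespace Pool.Agent.H57.FC

open Pool.Agent.W259.GS (Sh)
open Pool.Agent.H57.NC (cay ct ct_mono ct_le ct_inv ct_mul nm tn Tr pop_card)

/-- number of conjugates -/
noncomputable def idx {Γ : Type} [Group Γ] (g : Γ) : ℕ := (Subgroup.centralizer {g}).index

theorem idx_pos {Γ : Type} [Group Γ] [Finite Γ] (g : Γ) : 1 ≤ idx g :=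
  Nat.one_le_iff_ne_zero.2 (Subgroup.index_ne_zero_of_finite)

theorem idx_one {Γ : Type} [Group Γ] : idx (1 : Γ) = 1 := by
  unfold idx
  rw [Subgroup.index_eq_one, Subgroup.eq_top_iff']
  intro x
  rw [Subgroup.mem_centralizer_singleton_iff]
  simp

theorem idx_inv {Γ : Type} [Group Γ] (g : Γ) : idx g⁻¹ = idx g := by
  unfold idx
  congr 1
  ext x
  rw [Subgroup.mem_centralizer_singleton_iff, Subgroup.mem_centralizer_singleton_iff]
  constructor
  · intro h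
    have : Commute x g⁻¹ := h
    exact (Commute.inv_right_iff.1 this)
  · intro h
    have : Commute x g := h
    exact this.inv_right

theorem idx_mul {Γ : Type} [Group Γ] [Finite Γ] (g h : Γ) : idx (g * h) ≤ idx g * idx h := by
  unfold idx
  have h1 : Subgroup.centralizer {g} ⊓ Subgroup.centralizer {h} ≤
      Subgroup.centralizer {g * h} := by
    intro x hx
    rw [Subgroup.mem_inf, Subgroup.mem_centralizer_singleton_iff,
      Subgroup.mem_centralizer_singleton_iff] at hx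
    rw [Subgroup.mem_centralizer_singleton_iff]
    have e1 : Commute x g := hx.1
    have e2 : Commute x h := hx.2
    exact e1.mul_right e2
  have h2 : (Subgroup.centralizer {g * h}).index ≤
      (Subgroup.centralizer {g} ⊓ Subgroup.centralizer {h}).index :=
    Nat.le_of_dvd (Nat.pos_of_ne_zero Subgroup.index_ne_zero_of_finite)
      (Subgroup.index_dvd_of_le h1)
  exact h2.trans Subgroup.index_inf_le

open Classical in
/-- right translates of balls -/
theorem conj_cov {Γ : Type} [Group Γ] [Fintype Γ] {ν : Γ → ℝ} (hν : Nl ν) (x : Γ) (r : ℝ) :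
    ∃ T : Finset Γ, T.card ≤ idx x ∧ (∀ t ∈ T, ∃ b, ν b ≤ r ∧ t = b * x) ∧
      ∀ b, ν b ≤ r → ∃ t ∈ T, ν (t⁻¹ * (b * x)) ≤ 2 * r := by
  obtain ⟨C, hC⟩ : ∃ C : Subgroup Γ, C = Subgroup.centralizer {x} := ⟨_, rfl⟩
  have : Fintype (Γ ⧸ C) := Fintype.ofFinite _
  obtain ⟨Qs, hQs⟩ : ∃ Qs : Finset (Γ ⧸ C), Qs = univ.filter fun q =>
    ∃ b : Γ, ν b ≤ r ∧ (b : Γ ⧸ C) = q := ⟨_, rfl⟩
  have hch : ∀ q : Γ ⧸ C, q ∈ Qs → ∃ b : Γ, ν b ≤ r ∧ (b : Γ ⧸ C) = q := by
    intro q hq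
    rw [hQs, mem_filter] at hq
    exact hq.2
  choose! f hf1 hf2 using hch
  refine ⟨Qs.image fun q => f q * x, ?_, ?_, ?_⟩
  · refine card_image_le.trans ((card_le_univ _).trans ?_)
    unfold idx
    rw [← hC, Subgroup.index, Nat.card_eq_fintype_card]
  · intro t ht
    obtain ⟨q, hq, rfl⟩ := mem_image.1 ht
    exact ⟨f q, hf1 q hq, rfl⟩
  · intro b hb
    have hq : (b : Γ ⧸ C) ∈ Qs := by
      rw [hQs, mem_filter]
      exact ⟨mem_univ _, b, hb, rfl⟩
    refine ⟨f (b : Γ ⧸ C) * x, mem_image_of_mem _ hq, ?_⟩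
    have h1a : (f (b : Γ ⧸ C))⁻¹ * b ∈ C := QuotientGroup.eq.1 (hf2 _ hq)
    have h1 : (f (b : Γ ⧸ C))⁻¹ * b * x = x * ((f (b : Γ ⧸ C))⁻¹ * b) := by
      obtain ⟨g, hg⟩ : ∃ g, g = (f (b : Γ ⧸ C))⁻¹ * b := ⟨_, rfl⟩
      rw [← hg] at h1a ⊢
      rw [hC, Subgroup.mem_centralizer_singleton_iff] at h1a
      exact h1a
    have h2 : (f (b : Γ ⧸ C) * x)⁻¹ * (b * x) = (f (b : Γ ⧸ C))⁻¹ * b := by
      calc (f (b : Γ ⧸ C) * x)⁻¹ * (b * x) = x⁻¹ * ((f (b : Γ ⧸ C))⁻¹ * b * x) := by group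
        _ = x⁻¹ * (x * ((f (b : Γ ⧸ C))⁻¹ * b)) := by rw [h1]
        _ = (f (b : Γ ⧸ C))⁻¹ * b := by group
    rw [h2]
    refine (hν.mul _ _).trans ?_
    rw [hν.inv]
    have := hf1 _ hq
    linarith

open Classical in
/-- a norm with many small elements, large on `A`; small elements have few conjugates -/
structure St {Γ : Type} [Group Γ] [Fintype Γ] (A : Finset Γ) (k : ℕ) (κ K : ℝ) (ν : Γ → ℝ) :
    Prop where
  nr : Nl ν
  sepa : ∀ a ∈ A, 1 / 3 ≤ ν a
  dbl : (((univ : Finset Γ).filter fun g => ν g ≤ 1 / 4).card : ℝ) ≤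
    K * (((univ : Finset Γ).filter fun g => ν g ≤ κ).card : ℝ)
  sm : ∀ b, ν b < 1 → idx b ≤ k ^ 2

theorem St.mono {Γ : Type} [Group Γ] [Fintype Γ] {A : Finset Γ} {k : ℕ} {κ K K' : ℝ} {ν : Γ → ℝ}
    (h : St A k κ K ν) (hK : K ≤ K') : St A k κ K' ν :=
  ⟨h.nr, h.sepa, h.dbl.trans (mul_le_mul_of_nonneg_right hK (Nat.cast_nonneg _)), h.sm⟩

/-- `V` is covered by at most `N` translates of balls of radius `r` -/
def Cov {Γ : Type} [Group Γ] [Fintype Γ] (A : Finset Γ) (k : ℕ) (κ K N D r : ℝ)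
    (V : Finset Γ) : Prop :=
  ∃ S : Finset (Γ × (Γ → ℝ)), (S.card : ℝ) ≤ N ∧ (∀ p ∈ S, St A k κ K p.2 ∧ (idx p.1 : ℝ) ≤ D) ∧
    ∀ v ∈ V, ∃ p ∈ S, p.2 (p.1⁻¹ * v) ≤ r

theorem Cov.mono {Γ : Type} [Group Γ] [Fintype Γ] {A : Finset Γ} {k : ℕ}
    {κ K K' N N' D D' r r' : ℝ}
    {V V' : Finset Γ} (h : Cov A k κ K N D r V) (hK : K ≤ K') (hN : N ≤ N') (hD : D ≤ D')
    (hr : r ≤ r') (hV : V' ⊆ V) : Cov A k κ K' N' D' r' V' := by
  obtain ⟨S, h1, h2, h3⟩ := h
  refine ⟨S, h1.trans hN, fun p hp => ⟨(h2 p hp).1.mono hK, (h2 p hp).2.trans hD⟩, ?_⟩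
  intro v hv
  obtain ⟨p, hp, h4⟩ := h3 v (hV hv)
  exact ⟨p, hp, h4.trans hr⟩

/-- symmetric, contains the neutral element -/
structure Nv {Γ : Type} [Group Γ] (V : Finset Γ) : Prop where
  one : (1 : Γ) ∈ V
  inv : ∀ v ∈ V, v⁻¹ ∈ V

open Classical in
/-- the result of a stage -/
def Nx {Γ : Type} [Group Γ] (A : Finset Γ) (m : ℕ) (V V' : Finset Γ) : Prop :=
  Nv V' ∧ V ⊆ V' ∧ ∃ X' : Finset Γ, X'.Nonempty ∧ X' ⊆ A ∧ (∀ b ∈ X', b ∉ V) ∧
    ∀ z, z ∉ V' → (m + 1) * (X'.filter fun b => z * b ∈ A ∨ z * b ∈ V).card < X'.card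

theorem sy_sdiff {Γ : Type} [Group Γ] [DecidableEq Γ] {A V : Finset Γ} (hA : Sy A) (hV : Nv V) :
    Sy (A \ V) := by
  refine ⟨?_, ?_⟩
  · intro h
    exact hA.one (mem_sdiff.1 h).1
  · intro a ha
    rw [mem_sdiff] at ha ⊢
    refine ⟨hA.inv a ha.1, fun h => ha.2 ?_⟩
    have := hV.inv _ h
    rwa [inv_inv] at this

open Classical in
/-- the concentrated case -/
theorem stage_conc {Γ : Type} [Group Γ] [Fintype Γ] {A V : Finset Γ} (hA : Sy A) (hV : Nv V)
    (k : ℕ) (hk : 1 ≤ k) (hAk : ∀ a ∈ A, idx a ≤ k)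
    (m : ℕ) (κ K N D r η : ℝ) (hN : 1 ≤ N) (hD : 1 ≤ D) (hη : 0 < η) (hr : 0 ≤ r)
    (hr1 : 12 * r < 1)
    (S : Finset (Γ × (Γ → ℝ))) (hSN : (S.card : ℝ) ≤ N)
    (hS : ∀ p ∈ S, St A k κ K p.2 ∧ (idx p.1 : ℝ) ≤ D)
    (hSV : ∀ v ∈ V, ∃ p ∈ S, p.2 (p.1⁻¹ * v) ≤ r) (hne : (A \ V).Nonempty)
    (p₀ : Γ × (Γ → ℝ)) (hp₀ : p₀ ∈ S) (u : Γ)
    (hu : η * ((A \ V).card : ℝ) ≤ (((A \ V).filter fun b => p₀.2 (u⁻¹ * b) ≤ r).card : ℝ)) :
    ∃ V' : Finset Γ, Nx A m V V' ∧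
      Cov A k κ K (N + (N * ((N / (η / (4 * (m + 1)))) * k) +
        (N * ((N / (η / (4 * (m + 1)))) * D) +
        (N / (η / (4 * (m + 1)))) * ((N / (η / (4 * (m + 1)))) * k)))) (k ^ 4 * D)
        (12 * r) V' := by
  obtain ⟨X, hX⟩ : ∃ X, X = A \ V := ⟨_, rfl⟩
  rw [← hX] at hu hne
  have hXsy : Sy X := by rw [hX]; exact sy_sdiff hA hV
  have hXA : X ⊆ A := by rw [hX]; exact sdiff_subset
  have hn : (0 : ℝ) < X.card := by exact_mod_cast hne.card_pos
  have hm1 : (0 : ℝ) < (m : ℝ) + 1 := by positivity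
  obtain ⟨c, hc⟩ : ∃ c : ℝ, c = η / (4 * (m + 1)) := ⟨_, rfl⟩
  rw [← hc]
  have hc0 : 0 < c := by rw [hc]; positivity
  have hN0 : 0 < N := by linarith
  have hD0 : 0 < D := by linarith
  have hk1 : (1 : ℝ) ≤ k := by exact_mod_cast hk
  have hk0 : (0 : ℝ) < k := by linarith
  have hcN0 : 0 < c / N := by positivity
  have hcN : c / N ≤ c := div_le_self hc0.le hN
  obtain ⟨M, hM⟩ : ∃ M : ℝ, M = N / c := ⟨_, rfl⟩
  rw [← hM]
  have hM0 : 0 < M := by rw [hM]; positivity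
  have hp₀' := (hS p₀ hp₀).1.nr
  -- separated sets
  have hZ : ∀ p ∈ S, ∃ Z : Finset Γ, Z ⊆ X ∧ (Z.card : ℝ) ≤ M ∧ ∀ w,
      c / N * X.card ≤ ((X.filter fun b => p.2 (w⁻¹ * b) ≤ r).card : ℝ) →
      ∃ x ∈ Z, p.2 (x⁻¹ * w) ≤ 3 * r := by
    intro p hp
    have hν := (hS p hp).1.nr
    obtain ⟨Z, hZP, h1, h2, -⟩ := sep hν ((univ : Finset Γ).filter fun w =>
      c / N * X.card ≤ ((X.filter fun b => p.2 (w⁻¹ * b) ≤ r).card : ℝ)) X r (c / N * X.card) hr
      (fun z hz => (mem_filter.1 hz).2)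
    have hch : ∀ x : Γ, x ∈ Z → ∃ b ∈ X, p.2 (x⁻¹ * b) ≤ r := by
      intro x hx
      have h3 := (mem_filter.1 (hZP hx)).2
      have h4 : 0 < (X.filter fun b => p.2 (x⁻¹ * b) ≤ r).card := by
        have : (0 : ℝ) < ((X.filter fun b => p.2 (x⁻¹ * b) ≤ r).card : ℝ) :=
          lt_of_lt_of_le (by positivity) h3
        exact_mod_cast this
      obtain ⟨b, hb⟩ := card_pos.1 h4
      rw [mem_filter] at hb
      exact ⟨b, hb.1, hb.2⟩
    choose! f hf1 hf2 using hch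
    refine ⟨Z.image f, ?_, ?_, ?_⟩
    · intro y hy
      obtain ⟨x, hx, rfl⟩ := mem_image.1 hy
      exact hf1 x hx
    · have h3 : (Z.card : ℝ) * (c / N) * X.card ≤ 1 * X.card := by linarith
      have h4 := le_of_mul_le_mul_right h3 hn
      have h7 : ((Z.image f).card : ℝ) ≤ Z.card := by exact_mod_cast card_image_le
      refine h7.trans ?_
      rw [hM, le_div_iff₀ hc0]
      have h5 : (Z.card : ℝ) * (c / N) * N ≤ 1 * N := mul_le_mul_of_nonneg_right h4 hN0.le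
      have h6 : (Z.card : ℝ) * (c / N) * N = Z.card * c := by field_simp
      linarith
    · intro w hw
      obtain ⟨x, hx, h3⟩ := h2 w (mem_filter.2 ⟨mem_univ _, hw⟩)
      refine ⟨f x, mem_image_of_mem _ hx, ?_⟩
      have h4 := hν.tri (f x) x w
      have h5 := hf2 x hx
      rw [hν.symm] at h5
      linarith
  choose! Z hZX hZc hZ using hZ
  -- right translates
  have hT : ∀ (p : Γ × (Γ → ℝ)) (x : Γ) (R : ℝ), p ∈ S → ∃ T : Finset Γ, T.card ≤ idx x ∧
      (∀ t ∈ T, ∃ b, p.2 b ≤ R ∧ t = b * x) ∧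
      ∀ b, p.2 b ≤ R → ∃ t ∈ T, p.2 (t⁻¹ * (b * x)) ≤ 2 * R :=
    fun p x R hp => conj_cov (hS p hp).1.nr x R
  choose! T hTc hTb hT using hT
  -- the parts of the new set
  obtain ⟨Va, hVa⟩ : ∃ Va : Finset Γ, Va = (univ : Finset Γ).filter fun z =>
    c * X.card ≤ (ct z X V : ℝ) := ⟨_, rfl⟩
  obtain ⟨Vb, hVb⟩ : ∃ Vb : Finset Γ, Vb = (univ : Finset Γ).filter fun z => ∃ v,
    c * X.card ≤ ((X.filter fun b => z * b ∈ X ∧ p₀.2 (v⁻¹ * b) ≤ r).card : ℝ) := ⟨_, rfl⟩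
  have hVbinv : ∀ z ∈ Vb, z⁻¹ ∈ Vb := by
    intro z hz
    rw [hVb, mem_filter] at hz ⊢
    obtain ⟨-, v, hv⟩ := hz
    refine ⟨mem_univ _, z * v, hv.trans ?_⟩
    have : (X.filter fun b => z * b ∈ X ∧ p₀.2 (v⁻¹ * b) ≤ r).card ≤
        (X.filter fun b => z⁻¹ * b ∈ X ∧ p₀.2 ((z * v)⁻¹ * b) ≤ r).card := by
      refine card_le_card_of_injOn (fun b => z * b) ?_ ?_
      · intro b hb
        rw [mem_coe, mem_filter] at hb ⊢
        obtain ⟨hb1, hb2, hb3⟩ := hb
        refine ⟨hb2, ?_, ?_⟩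
        · simpa using hb1
        · have h1 : (z * v)⁻¹ * (z * b) = v⁻¹ * b := by group
          simp only
          rw [h1]
          exact hb3
      · intro b _ b' _ hbc
        exact mul_left_cancel hbc
    exact_mod_cast this
  obtain ⟨V', hV'⟩ : ∃ V' : Finset Γ, V' = V ∪ (Va ∪ ((univ.filter fun z => z⁻¹ ∈ Va) ∪ Vb)) :=
    ⟨_, rfl⟩
  have hmem : ∀ z, z ∈ V' ↔ z ∈ V ∨ z ∈ Va ∨ z⁻¹ ∈ Va ∨ z ∈ Vb := by
    intro z
    rw [hV', mem_union, mem_union, mem_union, mem_filter]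
    simp
  refine ⟨V', ⟨⟨?_, ?_⟩, ?_, X.filter (fun b => p₀.2 (u⁻¹ * b) ≤ r), ?_, ?_, ?_, ?_⟩, ?_⟩
  · rw [hmem]; exact Or.inl hV.one
  · intro v hv
    rw [hmem] at hv ⊢
    rcases hv with h | h | h | h
    · exact Or.inl (hV.inv v h)
    · right; right; left; rwa [inv_inv]
    · right; left; exact h
    · right; right; right; exact hVbinv v h
  · intro v hv
    rw [hmem]
    exact Or.inl hv
  · rw [← card_pos]
    have h1 : (0 : ℝ) < ((X.filter fun b => p₀.2 (u⁻¹ * b) ≤ r).card : ℝ) :=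
      lt_of_lt_of_le (by positivity) hu
    exact_mod_cast h1
  · exact (filter_subset _ _).trans hXA
  · intro b hb
    have := (mem_filter.1 hb).1
    rw [hX, mem_sdiff] at this
    exact this.2
  · intro z hz
    rw [hmem] at hz
    push Not at hz
    obtain ⟨-, hz1, -, hz2⟩ := hz
    rw [hVa, mem_filter] at hz1
    rw [hVb, mem_filter] at hz2
    push Not at hz1 hz2
    have h1 := hz1 (mem_univ _)
    have h2 := hz2 (mem_univ _) u
    have h3 : ((X.filter fun b => p₀.2 (u⁻¹ * b) ≤ r).filter fun b => z * b ∈ A ∨ z * b ∈ V) ⊆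
        (X.filter fun b => z * b ∈ V) ∪
          (X.filter fun b => z * b ∈ X ∧ p₀.2 (u⁻¹ * b) ≤ r) := by
      intro b hb
      rw [mem_filter, mem_filter] at hb
      obtain ⟨⟨hb1, hb2⟩, hb3⟩ := hb
      rw [mem_union, mem_filter, mem_filter]
      by_cases h4 : z * b ∈ V
      · left; exact ⟨hb1, h4⟩
      · right
        refine ⟨hb1, ?_, hb2⟩
        rw [hX, mem_sdiff]
        exact ⟨hb3.resolve_right h4, h4⟩
    have h4 := (card_le_card h3).trans (card_union_le _ _)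
    have h5 : ((((X.filter fun b => p₀.2 (u⁻¹ * b) ≤ r).filter fun b =>
        z * b ∈ A ∨ z * b ∈ V).card : ℕ) : ℝ) ≤ ct z X V +
          ((X.filter fun b => z * b ∈ X ∧ p₀.2 (u⁻¹ * b) ≤ r).card : ℝ) := by
      unfold ct
      exact_mod_cast h4
    have h6 : ((m : ℝ) + 1) * ((((X.filter fun b => p₀.2 (u⁻¹ * b) ≤ r).filter fun b =>
        z * b ∈ A ∨ z * b ∈ V).card : ℕ) : ℝ) <
        ((X.filter fun b => p₀.2 (u⁻¹ * b) ≤ r).card : ℝ) := by
      have h7 : ((m : ℝ) + 1) * ((((X.filter fun b => p₀.2 (u⁻¹ * b) ≤ r).filter fun b =>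
        z * b ∈ A ∨ z * b ∈ V).card : ℕ) : ℝ) ≤ ((m : ℝ) + 1) * (2 * (c * X.card)) :=
        mul_le_mul_of_nonneg_left (by linarith) hm1.le
      have h8 : ((m : ℝ) + 1) * (2 * (c * X.card)) = η * X.card / 2 := by
        rw [hc]; field_simp; ring
      have h9 : 0 < η * X.card := by positivity
      linarith
    exact_mod_cast h6
  · -- the cover
    have hidx : ∀ x ∈ X, idx x ≤ k := fun x hx => hAk x (hXA hx)
    obtain ⟨S1, hS1⟩ : ∃ S1 : Finset (Γ × (Γ → ℝ)), S1 = S.biUnion fun p =>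
      (Z p).biUnion fun x => (T p x⁻¹ (3 * r)).image fun t => (p.1 * t, p.2) := ⟨_, rfl⟩
    obtain ⟨S2, hS2⟩ : ∃ S2 : Finset (Γ × (Γ → ℝ)), S2 = S.biUnion fun p =>
      (Z p).biUnion fun x => (T p p.1⁻¹ (3 * r)).image fun t => (x * t, p.2) := ⟨_, rfl⟩
    obtain ⟨S3, hS3⟩ : ∃ S3 : Finset (Γ × (Γ → ℝ)), S3 = (Z p₀).biUnion fun x' =>
      (Z p₀).biUnion fun x => (T p₀ x⁻¹ (6 * r)).image fun t => (x' * t, p₀.2) := ⟨_, rfl⟩
    have hbi : ∀ {α : Type} (S : Finset α) (f : α → Finset (Γ × (Γ → ℝ))) (a b : ℝ),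
        (S.card : ℝ) ≤ a → 0 ≤ b → (∀ s ∈ S, ((f s).card : ℝ) ≤ b) →
        ((S.biUnion f).card : ℝ) ≤ a * b := by
      intro α S f a b ha hb hf
      have h1 : ((S.biUnion f).card : ℝ) ≤ ∑ s ∈ S, ((f s).card : ℝ) := by
        exact_mod_cast card_biUnion_le
      have h2 := sum_le_sum hf
      rw [sum_const, nsmul_eq_mul] at h2
      exact h1.trans (h2.trans (mul_le_mul_of_nonneg_right ha hb))
    have hc1 : (S1.card : ℝ) ≤ N * (M * k) := by
      rw [hS1]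
      apply hbi S _ _ _ hSN (by positivity)
      intro p hp
      apply hbi (Z p) _ _ _ (hZc p hp) hk0.le
      intro x hx
      have h1 : ((T p x⁻¹ (3 * r)).image fun t => (p.1 * t, p.2)).card ≤ k := by
        refine card_image_le.trans ((hTc p x⁻¹ (3 * r) hp).trans ?_)
        rw [idx_inv]
        exact hidx x (hZX p hp hx)
      exact_mod_cast h1
    have hc2 : (S2.card : ℝ) ≤ N * (M * D) := by
      rw [hS2]
      apply hbi S _ _ _ hSN (by positivity)
      intro p hp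
      apply hbi (Z p) _ _ _ (hZc p hp) hD0.le
      intro x hx
      have h1 : ((T p p.1⁻¹ (3 * r)).image fun t => (x * t, p.2)).card ≤ idx p.1 := by
        refine card_image_le.trans ((hTc p p.1⁻¹ (3 * r) hp).trans ?_)
        rw [idx_inv]
      have h2 : (((T p p.1⁻¹ (3 * r)).image fun t => (x * t, p.2)).card : ℝ) ≤ idx p.1 := by
        exact_mod_cast h1
      exact h2.trans (hS p hp).2
    have hc3 : (S3.card : ℝ) ≤ M * (M * k) := by
      rw [hS3]
      apply hbi (Z p₀) _ _ _ (hZc p₀ hp₀) (by positivity)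
      intro x' _
      apply hbi (Z p₀) _ _ _ (hZc p₀ hp₀) hk0.le
      intro x hx
      have h1 : ((T p₀ x⁻¹ (6 * r)).image fun t => (x' * t, p₀.2)).card ≤ k := by
        refine card_image_le.trans ((hTc p₀ x⁻¹ (6 * r) hp₀).trans ?_)
        rw [idx_inv]
        exact hidx x (hZX p₀ hp₀ hx)
      exact_mod_cast h1
    -- conjugates of the centres
    have hb2 : ∀ p ∈ S, ∀ b, p.2 b ≤ 6 * r → idx b ≤ k ^ 2 := by
      intro p hp b hb
      apply (hS p hp).1.sm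
      linarith
    have hk4 : (k : ℝ) ^ 3 ≤ k ^ 4 := pow_le_pow_right₀ hk1 (by norm_num)
    refine ⟨S ∪ (S1 ∪ (S2 ∪ S3)), ?_, ?_, ?_⟩
    · have h5 := (card_union_le S (S1 ∪ (S2 ∪ S3))).trans (Nat.add_le_add_left
        ((card_union_le S1 (S2 ∪ S3)).trans (Nat.add_le_add_left (card_union_le S2 S3) _)) _)
      have h6 : (((S ∪ (S1 ∪ (S2 ∪ S3))).card : ℕ) : ℝ) ≤
          S.card + (S1.card + (S2.card + S3.card)) := by exact_mod_cast h5
      linarith
    · intro p hp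
      rw [mem_union, mem_union, mem_union] at hp
      rcases hp with hp | hp | hp | hp
      · refine ⟨(hS p hp).1, (hS p hp).2.trans ?_⟩
        have : (1 : ℝ) ≤ k ^ 4 := one_le_pow₀ hk1
        nlinarith
      · rw [hS1, mem_biUnion] at hp
        obtain ⟨p', hp', hp⟩ := hp
        obtain ⟨x, hx, hp⟩ := mem_biUnion.1 hp
        obtain ⟨t, ht, rfl⟩ := mem_image.1 hp
        refine ⟨(hS p' hp').1, ?_⟩
        obtain ⟨b, hb, rfl⟩ := hTb p' x⁻¹ (3 * r) hp' t ht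
        have h1 := idx_mul p'.1 (b * x⁻¹)
        have h2 := idx_mul b x⁻¹
        rw [idx_inv] at h2
        have h3 := hb2 p' hp' b (by linarith)
        have h4 := hidx x (hZX p' hp' hx)
        have h5 : idx (b * x⁻¹) ≤ k ^ 3 := by
          refine h2.trans ((Nat.mul_le_mul h3 h4).trans (le_of_eq ?_))
          ring
        have h6 : (idx (p'.1 * (b * x⁻¹)) : ℝ) ≤ (idx p'.1 : ℝ) * (k : ℝ) ^ 3 := by
          have : idx (p'.1 * (b * x⁻¹)) ≤ idx p'.1 * k ^ 3 :=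
            h1.trans (Nat.mul_le_mul_left _ h5)
          exact_mod_cast this
        refine h6.trans ?_
        have h7 := (hS p' hp').2
        have h8 : (0 : ℝ) ≤ (k : ℝ) ^ 3 := by positivity
        calc (idx p'.1 : ℝ) * (k : ℝ) ^ 3 ≤ D * k ^ 3 := mul_le_mul_of_nonneg_right h7 h8
          _ ≤ D * k ^ 4 := mul_le_mul_of_nonneg_left hk4 hD0.le
          _ = k ^ 4 * D := by ring
      · rw [hS2, mem_biUnion] at hp
        obtain ⟨p', hp', hp⟩ := hp
        obtain ⟨x, hx, hp⟩ := mem_biUnion.1 hp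
        obtain ⟨t, ht, rfl⟩ := mem_image.1 hp
        refine ⟨(hS p' hp').1, ?_⟩
        obtain ⟨b, hb, rfl⟩ := hTb p' p'.1⁻¹ (3 * r) hp' t ht
        have h1 := idx_mul x (b * p'.1⁻¹)
        have h2 := idx_mul b p'.1⁻¹
        rw [idx_inv] at h2
        have h3 := hb2 p' hp' b (by linarith)
        have h4 := hidx x (hZX p' hp' hx)
        have h5 : idx (x * (b * p'.1⁻¹)) ≤ k * (k ^ 2 * idx p'.1) :=
          h1.trans (Nat.mul_le_mul h4 (h2.trans (Nat.mul_le_mul_right _ h3)))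
        have h6 : (idx (x * (b * p'.1⁻¹)) : ℝ) ≤ k * (k ^ 2 * (idx p'.1 : ℝ)) := by
          exact_mod_cast h5
        refine h6.trans ?_
        have h7 := (hS p' hp').2
        calc (k : ℝ) * (k ^ 2 * (idx p'.1 : ℝ)) = k ^ 3 * (idx p'.1 : ℝ) := by ring
          _ ≤ k ^ 3 * D := mul_le_mul_of_nonneg_left h7 (by positivity)
          _ ≤ k ^ 4 * D := mul_le_mul_of_nonneg_right hk4 hD0.le
      · rw [hS3] at hp
        obtain ⟨x', hx', hp⟩ := mem_biUnion.1 hp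
        obtain ⟨x, hx, hp⟩ := mem_biUnion.1 hp
        obtain ⟨t, ht, rfl⟩ := mem_image.1 hp
        refine ⟨(hS p₀ hp₀).1, ?_⟩
        obtain ⟨b, hb, rfl⟩ := hTb p₀ x⁻¹ (6 * r) hp₀ t ht
        have h1 := idx_mul x' (b * x⁻¹)
        have h2 := idx_mul b x⁻¹
        rw [idx_inv] at h2
        have h3 := hb2 p₀ hp₀ b hb
        have h4 := hidx x (hZX p₀ hp₀ hx)
        have h4' := hidx x' (hZX p₀ hp₀ hx')
        have h5 : idx (x' * (b * x⁻¹)) ≤ k * (k ^ 2 * k) :=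
          h1.trans (Nat.mul_le_mul h4' (h2.trans (Nat.mul_le_mul h3 h4)))
        have h6 : (idx (x' * (b * x⁻¹)) : ℝ) ≤ k * (k ^ 2 * k) := by exact_mod_cast h5
        refine h6.trans ?_
        calc (k : ℝ) * (k ^ 2 * k) = k ^ 4 * 1 := by ring
          _ ≤ k ^ 4 * D := mul_le_mul_of_nonneg_left hD (by positivity)
    · -- elements of `Va`
      have hVacov : ∀ z ∈ Va, ∃ p ∈ S, ∃ x ∈ Z p, ∃ b, p.2 b ≤ 3 * r ∧ z = p.1 * (b * x⁻¹) := by
        intro z hz
        rw [hVa, mem_filter] at hz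
        have h1 : ∃ p ∈ S, c / N * X.card ≤
            ((X.filter fun b => p.2 ((z⁻¹ * p.1)⁻¹ * b) ≤ r).card : ℝ) := by
          by_contra hcon
          push Not at hcon
          have h2 : (X.filter fun b => z * b ∈ V) ⊆ S.biUnion fun p =>
              X.filter fun b => p.2 ((z⁻¹ * p.1)⁻¹ * b) ≤ r := by
            intro b hb
            rw [mem_filter] at hb
            obtain ⟨p, hp, h3⟩ := hSV _ hb.2
            rw [mem_biUnion]
            refine ⟨p, hp, mem_filter.2 ⟨hb.1, ?_⟩⟩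
            have h4 : (z⁻¹ * p.1)⁻¹ * b = p.1⁻¹ * (z * b) := by group
            rw [h4]
            exact h3
          have h3 : (ct z X V : ℝ) ≤ ∑ p ∈ S,
              ((X.filter fun b => p.2 ((z⁻¹ * p.1)⁻¹ * b) ≤ r).card : ℝ) := by
            unfold ct
            exact_mod_cast (card_le_card h2).trans card_biUnion_le
          have h4 : ∑ p ∈ S, ((X.filter fun b => p.2 ((z⁻¹ * p.1)⁻¹ * b) ≤ r).card : ℝ) <
              ∑ p ∈ S, c / N * X.card := sum_lt_sum_of_nonempty ⟨p₀, hp₀⟩ hcon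
          rw [sum_const, nsmul_eq_mul] at h4
          have h5 : (S.card : ℝ) * (c / N * X.card) ≤ N * (c / N * X.card) :=
            mul_le_mul_of_nonneg_right hSN (by positivity)
          have h6 : N * (c / N * X.card) = c * X.card := by field_simp
          linarith [hz.2]
        obtain ⟨p, hp, h2⟩ := h1
        obtain ⟨x, hx, h3⟩ := hZ p hp _ h2
        refine ⟨p, hp, x, hx, p.1⁻¹ * z * x, ?_, by group⟩
        have hνp := (hS p hp).1.nr
        rw [← hνp.inv]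
        have h5 : (p.1⁻¹ * z * x)⁻¹ = x⁻¹ * (z⁻¹ * p.1) := by group
        rw [h5]
        exact h3
      intro v hv
      rw [hmem] at hv
      rcases hv with hv | hv | hv | hv
      · obtain ⟨p, hp, h1⟩ := hSV v hv
        exact ⟨p, mem_union_left _ hp, h1.trans (by linarith)⟩
      · obtain ⟨p, hp, x, hx, b, hb, hvb⟩ := hVacov v hv
        obtain ⟨t, ht, h1⟩ := hT p x⁻¹ (3 * r) hp b hb
        refine ⟨(p.1 * t, p.2), ?_, ?_⟩
        · rw [mem_union, mem_union]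
          right; left
          rw [hS1, mem_biUnion]
          refine ⟨p, hp, mem_biUnion.2 ⟨x, hx, mem_image.2 ⟨t, ht, rfl⟩⟩⟩
        · have h2 : (p.1 * t)⁻¹ * v = t⁻¹ * (b * x⁻¹) := by rw [hvb]; group
          simp only
          rw [h2]
          linarith
      · obtain ⟨p, hp, x, hx, b, hb, hvb⟩ := hVacov _ hv
        have hνp := (hS p hp).1.nr
        obtain ⟨t, ht, h1⟩ := hT p p.1⁻¹ (3 * r) hp b⁻¹ (by rw [hνp.inv]; exact hb)
        refine ⟨(x * t, p.2), ?_, ?_⟩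
        · rw [mem_union, mem_union, mem_union]
          right; right; left
          rw [hS2, mem_biUnion]
          refine ⟨p, hp, mem_biUnion.2 ⟨x, hx, mem_image.2 ⟨t, ht, rfl⟩⟩⟩
        · have h3 : v = x * (b⁻¹ * p.1⁻¹) := by
            have : v = (v⁻¹)⁻¹ := (inv_inv v).symm
            rw [this, hvb]; group
          have h2 : (x * t)⁻¹ * v = t⁻¹ * (b⁻¹ * p.1⁻¹) := by rw [h3]; group
          simp only
          rw [h2]
          linarith
      · rw [hVb, mem_filter] at hv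
        obtain ⟨-, w, hw⟩ := hv
        have h1 : c / N * X.card ≤ ((X.filter fun b => p₀.2 (w⁻¹ * b) ≤ r).card : ℝ) := by
          have h2 : ((X.filter fun b => v * b ∈ X ∧ p₀.2 (w⁻¹ * b) ≤ r).card : ℝ) ≤
              ((X.filter fun b => p₀.2 (w⁻¹ * b) ≤ r).card : ℝ) := by
            have : (X.filter fun b => v * b ∈ X ∧ p₀.2 (w⁻¹ * b) ≤ r) ⊆
                X.filter fun b => p₀.2 (w⁻¹ * b) ≤ r := by
              intro b hb
              rw [mem_filter] at hb ⊢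
              exact ⟨hb.1, hb.2.2⟩
            exact_mod_cast card_le_card this
          have h3 := mul_le_mul_of_nonneg_right hcN hn.le
          linarith
        have h1' : c / N * X.card ≤
            ((X.filter fun b => p₀.2 ((v * w)⁻¹ * b) ≤ r).card : ℝ) := by
          have h2 : ((X.filter fun b => v * b ∈ X ∧ p₀.2 (w⁻¹ * b) ≤ r).card : ℝ) ≤
              ((X.filter fun b => p₀.2 ((v * w)⁻¹ * b) ≤ r).card : ℝ) := by
            have : (X.filter fun b => v * b ∈ X ∧ p₀.2 (w⁻¹ * b) ≤ r).card ≤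
                (X.filter fun b => p₀.2 ((v * w)⁻¹ * b) ≤ r).card := by
              refine card_le_card_of_injOn (fun b => v * b) ?_ ?_
              · intro b hb
                rw [mem_coe, mem_filter] at hb ⊢
                refine ⟨hb.2.1, ?_⟩
                have h3 : (v * w)⁻¹ * (v * b) = w⁻¹ * b := by group
                simp only
                rw [h3]
                exact hb.2.2
              · intro b _ b' _ hbc
                exact mul_left_cancel hbc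
            exact_mod_cast this
          have h3 := mul_le_mul_of_nonneg_right hcN hn.le
          linarith
        obtain ⟨x, hx, h2⟩ := hZ p₀ hp₀ _ h1
        obtain ⟨x', hx', h3⟩ := hZ p₀ hp₀ _ h1'
        obtain ⟨b, hb⟩ : ∃ b, b = x'⁻¹ * (v * w) * (x⁻¹ * w)⁻¹ := ⟨_, rfl⟩
        have hb6 : p₀.2 b ≤ 6 * r := by
          rw [hb]
          refine (hp₀'.mul _ _).trans ?_
          rw [hp₀'.inv]
          linarith
        obtain ⟨t, ht, h4⟩ := hT p₀ x⁻¹ (6 * r) hp₀ b hb6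
        refine ⟨(x' * t, p₀.2), ?_, ?_⟩
        · rw [mem_union, mem_union, mem_union]
          right; right; right
          rw [hS3]
          exact mem_biUnion.2 ⟨x', hx', mem_biUnion.2 ⟨x, hx, mem_image.2 ⟨t, ht, rfl⟩⟩⟩
        · simp only
          have h5 : (x' * t)⁻¹ * v = t⁻¹ * (b * x⁻¹) := by rw [hb]; group
          rw [h5]
          linarith

end Pool.Agent.H57.FC
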