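import Mathlib

/-!
# Cayley graphs and subgroups
-/

set_option autoImplicit false

namespace Pool.Agent.H57.FC

theorem sub_adj {Γ : Type} [Group Γ] (H : Subgroup Γ) (A : Set Γ) (g : Γ) (x y : H) :
    (SimpleGraph.mulCayley {a : H | (a : Γ) ∈ A}).Adj x y ↔
      (SimpleGraph.mulCayley A).Adj (g * x) (g * y) := by
  rw [SimpleGraph.mulCayley_adj', SimpleGraph.mulCayley_adj']
  constructor
  · rintro ⟨h1, a, ha, h2⟩
    refine ⟨?_, (a : Γ), ha, ?_⟩
    · intro h3
      exact h1 (Subtype.ext (mul_left_cancel h3))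
    · rcases h2 with rfl | rfl
      · left; simp [mul_assoc]
      · right; simp [mul_assoc]
  · rintro ⟨h1, a, ha, h2⟩
    refine ⟨?_, ?_⟩
    · rintro rfl; exact h1 rfl
    · rcases h2 with h2 | h2
      · have h3 : (x : Γ) * a = y := by
          rw [mul_assoc] at h2
          exact mul_left_cancel h2
        have h4 : a ∈ H := by
          have : a = (x : Γ)⁻¹ * y := by rw [← h3]; group
          rw [this]
          exact H.mul_mem (H.inv_mem x.2) y.2
        exact ⟨⟨a, h4⟩, ha, Or.inl (Subtype.ext h3)⟩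
      · have h3 : (x : Γ) = y * a := by
          rw [mul_assoc] at h2
          exact mul_left_cancel h2
        have h4 : a ∈ H := by
          have : a = (y : Γ)⁻¹ * x := by rw [h3]; group
          rw [this]
          exact H.mul_mem (H.inv_mem y.2) x.2
        exact ⟨⟨a, h4⟩, ha, Or.inr (Subtype.ext h3)⟩

/-- the Cayley graph of a subgroup is an induced subgraph -/
noncomputable def subEmb {Γ : Type} [Group Γ] (H : Subgroup Γ) (A : Set Γ) :
    SimpleGraph.mulCayley {a : H | (a : Γ) ∈ A} ↪g SimpleGraph.mulCayley A where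
  toFun := fun x => (1 : Γ) * (x : Γ)
  inj' := by
    intro x y h
    exact Subtype.ext (mul_left_cancel h)
  map_rel_iff' := by
    intro x y
    exact (sub_adj H A 1 x y).symm

/-- colourings of the Cayley graph of a subgroup give colourings of the whole graph -/
theorem sub_col {Γ : Type} [Group Γ] [Finite Γ] (H : Subgroup Γ) (A : Set Γ) (C : ℕ)
    (hB : (SimpleGraph.mulCayley {a : H | (a : Γ) ∈ A}).Colorable C) :
    (SimpleGraph.mulCayley A).Colorable (C * H.index) := by
  classical
  obtain ⟨c⟩ := hB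
  have : Fintype (Γ ⧸ H) := Fintype.ofFinite _
  have hmem : ∀ x : Γ, ((x : Γ ⧸ H).out)⁻¹ * x ∈ H := by
    intro x
    rw [← QuotientGroup.eq]
    exact Quotient.out_eq' _
  let col : (SimpleGraph.mulCayley A).Coloring (Fin C × (Γ ⧸ H)) :=
    SimpleGraph.Coloring.mk (fun x => (c ⟨((x : Γ ⧸ H).out)⁻¹ * x, hmem x⟩, (x : Γ ⧸ H))) (by
      intro x y hxy h
      rw [Prod.mk.injEq] at h
      obtain ⟨h1, h2⟩ := h
      refine c.valid ?_ h1
      rw [sub_adj H A ((x : Γ ⧸ H).out)]
      simp only
      rw [mul_inv_cancel_left]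
      have h3 : (x : Γ ⧸ H).out * ((y : Γ ⧸ H).out⁻¹ * y) = y := by
        rw [h2, mul_inv_cancel_left]
      rw [h3]
      exact hxy)
  have h4 := col.colorable
  rw [Fintype.card_prod, Fintype.card_fin] at h4
  have h5 : Fintype.card (Γ ⧸ H) = H.index := by
    rw [Subgroup.index, Nat.card_eq_fintype_card]
  rwa [h5] at h4

end Pool.Agent.H57.FC
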